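import Pool.Agent.Lib.MP_b525bf_ag_h42.Chart

/-!
# Resolutions from Proj of a Rees algebra
-/

set_option autoImplicit false
set_option linter.unusedSectionVars false
set_option linter.style.haveILetI false

open HomogeneousLocalization AlgebraicGeometry CategoryTheory

namespace Pool.Agent.MPb525bf

universe u

variable {R : Type u} [CommRing R] [IsDomain R] (F : Filt R)

/-- `R` is the degree zero part of the Rees algebra, as an isomorphism of commutative rings. -/
noncomputable def zeroIso : CommRingCat.of R ≅ CommRingCat.of (gr F 0) :=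
  RingEquiv.toCommRingCatIso (R := R) (S := gr F 0)
    { toFun := zeroEquiv F
      invFun := (zeroEquiv F).symm
      left_inv := (zeroEquiv F).left_inv
      right_inv := (zeroEquiv F).right_inv
      map_mul' := (zeroEquiv F).map_mul
      map_add' := (zeroEquiv F).map_add }

/-- The structure morphism of the Proj of the Rees algebra. -/
noncomputable def piMap : Proj (gr F) ⟶ Spec (CommRingCat.of R) :=
  Proj.toSpecZero (gr F) ≫ Spec.map (zeroIso F).hom

instance [h : Algebra.FiniteType R (rees F)] : Algebra.FiniteType (gr F 0) (rees F) := by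
  obtain ⟨s, hs⟩ := h.out
  refine ⟨s, ?_⟩
  rw [eq_top_iff]
  intro x _
  have hx : x ∈ Algebra.adjoin R (s : Set (rees F)) := by rw [hs]; trivial
  induction hx using Algebra.adjoin_induction with
  | mem x hx => exact Algebra.subset_adjoin hx
  | algebraMap r =>
    exact (Algebra.adjoin (gr F 0) (s : Set (rees F))).algebraMap_mem (zeroEquiv F r)
  | add x y _ _ hx hy => exact add_mem (hx trivial) (hy trivial)
  | mul x y _ _ hx hy => exact mul_mem (hx trivial) (hy trivial)

instance [Algebra.FiniteType R (rees F)] : IsProper (piMap F) := by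
  unfold piMap
  infer_instance

/-- The ring homomorphism `R → S_(gT)`. -/
noncomputable def phi {g : R} (hg : g ∈ F.J 1) : R →+* Away (gr F) (gT F g hg) :=
  (fromZeroRingHom (gr F) _).comp (zeroIso F).hom.hom

theorem awayι_piMap {g : R} (hg : g ∈ F.J 1) :
    Proj.awayι (gr F) (gT F g hg) (gT_mem F g hg) one_pos ≫ piMap F
      = Spec.map (CommRingCat.ofHom (phi F hg)) := by
  rw [piMap, Proj.awayι_toSpecZero_assoc, ← Spec.map_comp]
  rfl

theorem psi_phi (K : Type u) [Field K] [Algebra R K] [FaithfulSMul R K]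
    {g : R} (hg : g ∈ F.J 1) (g0 : g ≠ 0) (r : R) :
    psi F K hg g0 (phi F hg r) = algebraMap R K r := psi_zero F K hg g0 r

/-- The element `h / g` of a chart. -/
noncomputable def frac {g h : R} (hg : g ∈ F.J 1) (hh : h ∈ F.J 1) : Away (gr F) (gT F g hg) :=
  Away.mk (gr F) (gT_mem F g hg) 1 (gT F h hh) (by simpa using gT_mem F h hh)

theorem psi_frac (K : Type u) [Field K] [Algebra R K] [FaithfulSMul R K]
    {g h : R} (hg : g ∈ F.J 1) (g0 : g ≠ 0) (hh : h ∈ F.J 1) :
    psi F K hg g0 (frac F hg hh) = algebraMap R K h * (algebraMap R K g)⁻¹ := by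
  rw [frac, psi_mk]
  simp [gT, mon]

theorem gT_ne_zero {g : R} (hg : g ∈ F.J 1) (g0 : g ≠ 0) : gT F g hg ≠ 0 := by
  intro h
  have := congrArg (fun z : rees F => z.1.coeff 1) h
  simp [gT, mon] at this
  exact g0 this

/-- The generic point of the Proj. -/
noncomputable def genPt {g : R} (hg : g ∈ F.J 1) (g0 : g ≠ 0) : ProjectiveSpectrum (gr F) where
  asHomogeneousIdeal := ⊥
  isPrime := by
    rw [HomogeneousIdeal.toIdeal_bot]
    exact Ideal.isPrime_bot
  not_irrelevant_le := by
    intro h
    have h1 : gT F g hg ∈ (HomogeneousIdeal.irrelevant (gr F)) := by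
      rw [HomogeneousIdeal.mem_irrelevant_iff, GradedRing.proj_apply,
        DirectSum.decompose_of_mem_ne (gr F) (gT_mem F g hg) one_ne_zero]
    have h2 := h h1
    rw [← HomogeneousIdeal.mem_iff, HomogeneousIdeal.toIdeal_bot, Ideal.mem_bot] at h2
    exact gT_ne_zero F hg g0 h2

theorem isIntegral_proj {g : R} (hg : g ∈ F.J 1) (g0 : g ≠ 0) : IsIntegral (Proj (gr F)) := by
  rw [isIntegral_iff_irreducibleSpace_and_isReduced]
  constructor
  · have hη : ∀ U : Set (Proj (gr F)), IsOpen U → U.Nonempty → (genPt F hg g0 : Proj (gr F)) ∈ U := by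
      rintro U hU ⟨x, hx⟩
      obtain ⟨_, ⟨f, rfl⟩, hxf, hfU⟩ :=
        (ProjectiveSpectrum.isTopologicalBasis_basic_opens (gr F)).exists_subset_of_mem_open hx hU
      apply hfU
      change f ∉ (⊥ : HomogeneousIdeal (gr F))
      rw [← HomogeneousIdeal.mem_iff, HomogeneousIdeal.toIdeal_bot, Ideal.mem_bot]
      rintro rfl
      exact hxf (Ideal.zero_mem _)
    have : PreirreducibleSpace (Proj (gr F)) := ⟨by
      intro U V hU hV h1 h2
      simp only [Set.univ_inter] at h1 h2 ⊢
      exact ⟨_, hη U hU h1, hη V hV h2⟩⟩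
    exact { toNonempty := ⟨genPt F hg g0⟩ }
  · have : ∀ x : Proj (gr F), _root_.IsReduced ((Proj (gr F)).presheaf.stalk x) := by
      intro x
      have h1 : _root_.IsReduced (AtPrime (gr F) x.asHomogeneousIdeal.toIdeal) := by
        have : IsDomain (Localization.AtPrime x.asHomogeneousIdeal.toIdeal) :=
          IsLocalization.isDomain_localization (Ideal.primeCompl_le_nonZeroDivisors _)
        let f : AtPrime (gr F) x.asHomogeneousIdeal.toIdeal →+*
          Localization.AtPrime x.asHomogeneousIdeal.toIdeal := algebraMap _ _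
        refine isReduced_of_injective f ?_
        intro a b hab
        exact HomogeneousLocalization.val_injective _ hab
      exact isReduced_of_injective (Proj.stalkIso (gr F) x).commRingCatIsoToRingEquiv
        (Proj.stalkIso (gr F) x).commRingCatIsoToRingEquiv.injective
    exact isReduced_of_isReduced_stalk _


section Birational

/-- `h² ∈ J₁`. -/
theorem sq_mem {h : R} (hh : h ∈ F.J 1) : h * h ∈ F.J 1 := Ideal.mul_mem_left _ _ hh

variable {h : R} (hh : h ∈ F.J 1) (h0 : h ≠ 0)

theorem frac_eq {g : R} (hg : g ∈ F.J 1) (g0 : g ≠ 0) :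
    frac F hg (sq_mem F hh) = phi F hg h * frac F hg hh := by
  apply psi_injective F (FractionRing R) hg g0
  rw [map_mul, psi_phi, psi_frac F _ hg g0, psi_frac F _ hg g0, map_mul]
  ring

theorem phi_eq {g : R} (hg : g ∈ F.J 1) (g0 : g ≠ 0) :
    phi F hg h = phi F hg g * frac F hg hh := by
  apply psi_injective F (FractionRing R) hg g0
  rw [map_mul, psi_phi, psi_phi, psi_frac F _ hg g0]
  have : algebraMap R (FractionRing R) g ≠ 0 := by
    rwa [Ne, FaithfulSMul.algebraMap_eq_zero_iff]
  field_simp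

theorem isLocalizationElem_eq {g : R} (hg : g ∈ F.J 1) :
    Away.isLocalizationElem (gT_mem F g hg) (gT_mem F h hh) = frac F hg hh := by
  apply HomogeneousLocalization.val_injective
  rw [Away.isLocalizationElem, frac, Away.val_mk, Away.val_mk]
  simp

/-- The preimage of `D(h)` is `D₊(h² T)`. -/
theorem preimage_basicOpen {ι : Type*} (g : ι → R) (hg : ∀ i, g i ∈ F.J 1) (g0 : ∀ i, g i ≠ 0)
    (hcov : ⨆ i, Proj.basicOpen (gr F) (gT F (g i) (hg i)) = ⊤) :
    piMap F ⁻¹ᵁ (PrimeSpectrum.basicOpen h : (Spec (CommRingCat.of R)).Opens)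
      = Proj.basicOpen (gr F) (gT F (h * h) (sq_mem F hh)) := by
  ext x
  have hx : x ∈ ⨆ i, Proj.basicOpen (gr F) (gT F (g i) (hg i)) := by rw [hcov]; trivial
  obtain ⟨i, hi⟩ := TopologicalSpace.Opens.mem_iSup.1 hx
  rw [← Proj.opensRange_awayι (gr F) _ (gT_mem F (g i) (hg i)) one_pos] at hi
  obtain ⟨y, rfl⟩ := hi
  have e1 : (Proj.awayι (gr F) _ (gT_mem F (g i) (hg i)) one_pos y) ∈
      piMap F ⁻¹ᵁ (PrimeSpectrum.basicOpen h : (Spec (CommRingCat.of R)).Opens) ↔
      phi F (hg i) h ∉ y.asIdeal := by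
    change piMap F (Proj.awayι (gr F) _ (gT_mem F (g i) (hg i)) one_pos y) ∈
      (PrimeSpectrum.basicOpen h : (Spec (CommRingCat.of R)).Opens) ↔ _
    rw [← Scheme.Hom.comp_apply, awayι_piMap]
    rfl
  have e2 : (Proj.awayι (gr F) _ (gT_mem F (g i) (hg i)) one_pos y) ∈
      Proj.basicOpen (gr F) (gT F (h * h) (sq_mem F hh)) ↔
      frac F (hg i) (sq_mem F hh) ∉ y.asIdeal := by
    have := Proj.awayι_preimage_basicOpen (gr F) (gT_mem F (g i) (hg i)) one_pos
      (gT_mem F (h * h) (sq_mem F hh)) one_pos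
    rw [isLocalizationElem_eq] at this
    have h2 : (y ∈ Proj.awayι (gr F) _ (gT_mem F (g i) (hg i)) one_pos ⁻¹ᵁ
      Proj.basicOpen (gr F) (gT F (h * h) (sq_mem F hh))) ↔
      y ∈ PrimeSpectrum.basicOpen (frac F (hg i) (sq_mem F hh)) := by
        rw [this]; exact Iff.rfl
    exact h2
  have key : phi F (hg i) h ∉ y.asIdeal ↔ frac F (hg i) (sq_mem F hh) ∉ y.asIdeal := by
    rw [frac_eq F hh (hg i) (g0 i)]
    constructor
    · intro hn hmem
      rcases y.isPrime.mem_or_mem hmem with h1 | h1
      · exact hn h1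
      · apply hn
        rw [phi_eq F hh (hg i) (g0 i)]
        exact Ideal.mul_mem_left _ _ h1
    · intro hn hmem
      exact hn (Ideal.mul_mem_right _ _ hmem)
  exact (e1.trans key).trans e2.symm

include h0 in
theorem isLocalization_phi :
    letI := (phi F (sq_mem F hh)).toAlgebra
    IsLocalization.Away h (Away (gr F) (gT F (h * h) (sq_mem F hh))) := by
  letI := (phi F (sq_mem F hh)).toAlgebra
  have hh0 : h * h ≠ 0 := mul_ne_zero h0 h0
  have hK : algebraMap R (FractionRing R) h ≠ 0 := by
    rwa [Ne, FaithfulSMul.algebraMap_eq_zero_iff]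
  have hu : phi F (sq_mem F hh) h * frac F (sq_mem F hh) hh = 1 := by
    apply psi_injective F (FractionRing R) (sq_mem F hh) hh0
    rw [map_mul, psi_phi, psi_frac F _ _ hh0, map_one, map_mul]
    field_simp
  have hu' : frac F (sq_mem F hh) hh * phi F (sq_mem F hh) h = 1 := by
    apply psi_injective F (FractionRing R) (sq_mem F hh) hh0
    rw [map_mul, psi_phi, psi_frac F _ _ hh0, map_one, map_mul]
    field_simp
  rw [IsLocalization.Away, isLocalization_iff]
  refine ⟨?_, ?_, ?_⟩
  · rintro ⟨_, n, rfl⟩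
    change IsUnit (phi F (sq_mem F hh) (h ^ n))
    rw [map_pow]
    exact IsUnit.pow n ⟨⟨_, _, hu, hu'⟩, rfl⟩
  · intro z
    obtain ⟨n, a, ha, rfl⟩ := Away.mk_surjective (gr F) (gT_mem F (h * h) (sq_mem F hh)) z
    refine ⟨(a.1.coeff n, ⟨h ^ (2 * n), 2 * n, rfl⟩), ?_⟩
    change _ * phi F (sq_mem F hh) (h ^ (2 * n)) = phi F (sq_mem F hh) (a.1.coeff n)
    apply psi_injective F (FractionRing R) (sq_mem F hh) hh0
    rw [map_mul, psi_phi, psi_phi, psi_mk, map_mul, map_pow, pow_mul, inv_pow, ← pow_two,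
      mul_assoc, inv_mul_cancel₀ (pow_ne_zero _ (pow_ne_zero _ hK)), mul_one]
  · intro x y hxy
    refine ⟨1, ?_⟩
    have h1 : phi F (sq_mem F hh) x = phi F (sq_mem F hh) y := hxy
    have h2 := congrArg (psi F (FractionRing R) (sq_mem F hh) hh0) h1
    rw [psi_phi, psi_phi] at h2
    rw [IsFractionRing.injective R (FractionRing R) h2]

include h0 in
theorem isOpenImmersion_phi :
    IsOpenImmersion (Spec.map (CommRingCat.ofHom (phi F (sq_mem F hh)))) := by
  letI := (phi F (sq_mem F hh)).toAlgebra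
  have := isLocalization_phi F hh h0
  exact IsOpenImmersion.of_isLocalization (R := R)
    (S := Away (gr F) (gT F (h * h) (sq_mem F hh))) h

include hh h0 in
theorem isIso_restrict {ι : Type*} (g : ι → R) (hg : ∀ i, g i ∈ F.J 1) (g0 : ∀ i, g i ≠ 0)
    (hcov : ⨆ i, Proj.basicOpen (gr F) (gT F (g i) (hg i)) = ⊤) :
    IsIso (piMap F ∣_ (PrimeSpectrum.basicOpen h : (Spec (CommRingCat.of R)).Opens)) := by
  set U : (Spec (CommRingCat.of R)).Opens := PrimeSpectrum.basicOpen h with hU
  have hV := preimage_basicOpen F hh g hg g0 hcov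
  set V := piMap F ⁻¹ᵁ U with hVdef
  -- the map `V.ι ≫ π` is an open immersion
  let e : Spec (.of (Away (gr F) (gT F (h * h) (sq_mem F hh)))) ⟶ Proj (gr F) :=
    Proj.awayι (gr F) _ (gT_mem F (h * h) (sq_mem F hh)) one_pos
  have heR : e.opensRange = V := by
    rw [hV]; exact Proj.opensRange_awayι _ _ _ _
  have hsub : Set.range V.ι ⊆ Set.range e := by
    rw [Scheme.Opens.range_ι, ← heR]; rfl
  have h1 : IsOpenImmersion (V.ι ≫ piMap F) := by
    have h2 := IsOpenImmersion.lift_fac e V.ι hsub
    have h3 : IsOpenImmersion (IsOpenImmersion.lift e V.ι hsub) := by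
      have : IsOpenImmersion (IsOpenImmersion.lift e V.ι hsub ≫ e) := by
        rw [h2]; infer_instance
      exact IsOpenImmersion.of_comp _ e
    have h4 := isOpenImmersion_phi F hh h0
    rw [← h2, Category.assoc, awayι_piMap]
    infer_instance
  have h5 : IsOpenImmersion (piMap F ∣_ U) := by
    have : IsOpenImmersion ((piMap F ∣_ U) ≫ U.ι) := by
      rw [morphismRestrict_ι]; exact h1
    exact IsOpenImmersion.of_comp _ U.ι
  apply isIso_of_isOpenImmersion_of_opensRange_eq_top
  rw [eq_top_iff]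
  rintro ⟨y, hy⟩ _
  have hy' : y ∈ Set.range (Spec.map (CommRingCat.ofHom (phi F (sq_mem F hh)))) := by
    letI := (phi F (sq_mem F hh)).toAlgebra
    have := isLocalization_phi F hh h0
    have h6 := PrimeSpectrum.localization_away_comap_range
      (Away (gr F) (gT F (h * h) (sq_mem F hh))) h
    have : y ∈ (PrimeSpectrum.basicOpen h : Set (PrimeSpectrum R)) := hy
    rw [← h6] at this
    exact this
  obtain ⟨z, hz⟩ := hy'
  have hez : e z ∈ V := by
    rw [← heR]; exact ⟨z, rfl⟩
  refine ⟨⟨e z, hez⟩, ?_⟩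
  apply Subtype.ext
  rw [morphismRestrict_base_coe]
  change piMap F (e z) = y
  rw [← hz, ← awayι_piMap]
  rfl

end Birational


/-- The conclusion of the resolution problem for one variety `f : X ⟶ Spec k`: there is an integral
scheme `Y`, smooth over `k`, with a proper morphism to `X` which is an isomorphism over a dense
open subset of `X`. -/
def HasResolution {k : Type u} [Field k] {X : Scheme.{u}} (f : X ⟶ Spec (CommRingCat.of k)) :
    Prop :=
  ∃ (Y : Scheme.{u}) (π : Y ⟶ X), IsIntegral Y ∧ IsProper π ∧ Smooth (π ≫ f) ∧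
    ∃ U : X.Opens, Dense (U : Set X) ∧ IsIso (π ∣_ U)

/-- General criterion. -/
theorem hasResolution_of_charts {k : Type u} [Field k] [Algebra k R]
    (K : Type u) [Field K] [Algebra R K] [FaithfulSMul R K]
    [Algebra.FiniteType R (rees F)]
    {ι : Type*} [Nonempty ι] (g : ι → R) (hg : ∀ i, g i ∈ F.J 1) (g0 : ∀ i, g i ≠ 0)
    (hcov : ∀ P : Ideal (rees F), P.IsPrime → (∀ i, gT F (g i) (hg i) ∈ P) →
      ∀ n, ∀ r : F.J (n + 1), mon F (n + 1) r ∈ P)
    (hsm : ∀ i, ((algebraMap R (chart F K (g i) (hg i))).comp (algebraMap k R)).Smooth) :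
    HasResolution (Spec.map (CommRingCat.ofHom (algebraMap k R))) := by
  classical
  have hcov' : ⨆ i, Proj.basicOpen (gr F) (gT F (g i) (hg i)) = ⊤ := by
    rw [eq_top_iff]
    intro x _
    rw [TopologicalSpace.Opens.mem_iSup]
    by_contra hx
    push Not at hx
    apply x.not_irrelevant_le
    have hx' : ∀ i, gT F (g i) (hg i) ∈ x.asHomogeneousIdeal.toIdeal := by
      intro i
      by_contra h
      exact hx i h
    have h1 := hcov _ x.isPrime hx'
    intro f hf
    rw [HomogeneousIdeal.mem_irrelevant_iff, GradedRing.proj_apply] at hf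
    rw [← HomogeneousIdeal.mem_iff, ← DirectSum.sum_support_decompose (gr F) f]
    refine Ideal.sum_mem _ fun n _ => ?_
    rcases n with _ | n
    · rw [hf]; exact Ideal.zero_mem _
    · set a := DirectSum.decompose (gr F) f (n + 1)
      have h2 : (a : rees F) = mon F (n + 1) ⟨a.1.1.coeff (n + 1), a.1.2 (n + 1)⟩ := by
        apply Subtype.ext
        exact mem_gr_iff.1 a.2
      rw [h2]
      exact h1 n _
  obtain ⟨i0⟩ := ‹Nonempty ι›
  refine ⟨Proj (gr F), piMap F, isIntegral_proj F (hg i0) (g0 i0), inferInstance, ?_,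
    PrimeSpectrum.basicOpen (g i0), ?_, isIso_restrict F (hg i0) (g0 i0) g hg g0 hcov'⟩
  · rw [IsZariskiLocalAtSource.iff_of_iSup_eq_top (P := @Smooth) _ hcov']
    intro i
    rw [← MorphismProperty.cancel_left_of_respectsIso (P := @Smooth)
      (Proj.basicOpenIsoSpec (gr F) _ (gT_mem F (g i) (hg i)) one_pos).inv, ← Category.assoc,
      ← Proj.awayι, ← Category.assoc, awayι_piMap, ← Spec.map_comp,
      HasRingHomProperty.Spec_iff (P := @Smooth)]
    have h1 : ((algebraMap R (chart F K (g i) (hg i))).comp (algebraMap k R))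
        = (awayEquiv F K (hg i) (g0 i) : Away (gr F) (gT F (g i) (hg i)) →+* _).comp
          ((phi F (hg i)).comp (algebraMap k R)) := by
      ext r
      change algebraMap R K (algebraMap k R r) = psi F K (hg i) (g0 i) (phi F (hg i) (algebraMap k R r))
      rw [psi_phi]
    have h2 := hsm i
    rw [h1] at h2
    have h3 : (phi F (hg i)).comp (algebraMap k R) =
        ((awayEquiv F K (hg i) (g0 i)).symm : chart F K (g i) (hg i) →+* _).comp
          ((awayEquiv F K (hg i) (g0 i) : Away (gr F) (gT F (g i) (hg i)) →+* _).comp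
          ((phi F (hg i)).comp (algebraMap k R))) := by
      ext r
      simp
    change ((phi F (hg i)).comp (algebraMap k R)).Smooth
    rw [h3]
    exact h2.comp (RingHom.Smooth.of_bijective (awayEquiv F K (hg i) (g0 i)).symm.bijective)
  · change Dense (PrimeSpectrum.basicOpen (g i0) : Set (PrimeSpectrum R))
    apply IsOpen.dense
    · exact (PrimeSpectrum.basicOpen (g i0)).isOpen
    · refine ⟨⟨⊥, Ideal.isPrime_bot⟩, ?_⟩
      change g i0 ∉ (⊥ : Ideal R)
      rw [Ideal.mem_bot]
      exact g0 i0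

end Pool.Agent.MPb525bf
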