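import Pool.Agent.Lib.MP_b525bf_ag_h42.Resolve

/-!
# Linear actions on polynomial rings, change of coordinates
-/

set_option autoImplicit false
set_option linter.style.haveILetI false
set_option linter.unusedSectionVars false

open MvPolynomial AlgebraicGeometry CategoryTheory

namespace Pool.Agent.MPb525bf

universe u

section Iso

/-- Existence of resolutions is invariant under isomorphisms. -/
theorem HasResolution.of_isIso {k : Type u} [Field k] {X X' : Scheme.{u}} (i : X ⟶ X') [IsIso i]
    (f' : X' ⟶ Spec (CommRingCat.of k)) (h : HasResolution (i ≫ f')) : HasResolution f' := by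
  obtain ⟨Y, π, h1, h2, h3, U, hU, hi⟩ := h
  have e : i ⁻¹ᵁ ((inv i) ⁻¹ᵁ U) = U := by
    rw [← Scheme.Hom.comp_preimage, IsIso.hom_inv_id]; rfl
  refine ⟨Y, π ≫ i, h1, inferInstance, by rw [Category.assoc]; exact h3, (inv i) ⁻¹ᵁ U, ?_, ?_⟩
  · have h4 : ((inv i) ⁻¹ᵁ U : Set X') = (inv i).homeomorph ⁻¹' (U : Set X) := rfl
    rw [h4]
    exact hU.preimage (inv i).homeomorph.isOpenMap
  · rw [morphismRestrict_comp]
    have h5 : IsIso (π ∣_ i ⁻¹ᵁ ((inv i) ⁻¹ᵁ U)) := by rw [e]; exact hi
    have h6 : IsIso (i ∣_ ((inv i) ⁻¹ᵁ U)) := inferInstance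
    exact @IsIso.comp_isIso _ _ _ _ _ _ _ h5 h6

theorem HasResolution.of_algEquiv {k : Type u} [Field k] {R R' : Type u} [CommRing R] [CommRing R']
    [Algebra k R] [Algebra k R'] (e : R ≃ₐ[k] R')
    (h : HasResolution (Spec.map (CommRingCat.ofHom (algebraMap k R)))) :
    HasResolution (Spec.map (CommRingCat.ofHom (algebraMap k R'))) := by
  have h1 : CommRingCat.ofHom (algebraMap k R) = CommRingCat.ofHom (algebraMap k R') ≫
      (e.symm.toRingEquiv.toCommRingCatIso).hom := by
    ext r
    exact (e.symm.commutes r).symm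
  rw [h1, Spec.map_comp] at h
  exact HasResolution.of_isIso _ _ h

/-- A smooth variety has a resolution. -/
theorem HasResolution.of_smooth {k : Type u} [Field k] {X : Scheme.{u}} [IsIntegral X]
    (f : X ⟶ Spec (CommRingCat.of k)) [Smooth f] : HasResolution f :=
  ⟨X, 𝟙 X, inferInstance, inferInstance, by rw [Category.id_comp]; infer_instance, ⊤,
    by simp, inferInstance⟩

end Iso

section Sub

variable {k : Type u} [Field k]

/-- The substitution `X_j ↦ ∑ᵢ M i j Xᵢ` given by a matrix `M`. -/
noncomputable def sub {m n : Type} [Fintype m] (M : Matrix m n k) :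
    MvPolynomial n k →ₐ[k] MvPolynomial m k :=
  aeval fun j => ∑ i, MvPolynomial.C (M i j) * X i

theorem sub_X {m n : Type} [Fintype m] (M : Matrix m n k) (j : n) :
    sub M (X j) = ∑ i, MvPolynomial.C (M i j) * X i := by
  rw [sub, aeval_X]

theorem sub_mul {l m n : Type} [Fintype l] [Fintype m] (M : Matrix l m k) (N : Matrix m n k) :
    sub (M * N) = (sub M).comp (sub N) := by
  ext j : 1
  rw [AlgHom.comp_apply, sub_X, sub_X, map_sum]
  simp only [map_mul, sub_X]
  have : ∀ i, sub M (MvPolynomial.C (N i j)) = MvPolynomial.C (N i j) := by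
    intro i
    exact AlgHom.commutes (sub M) _
  simp only [this, Matrix.mul_apply, map_sum, Finset.sum_mul, Finset.mul_sum, map_mul]
  rw [Finset.sum_comm]
  refine Finset.sum_congr rfl fun i _ => Finset.sum_congr rfl fun j _ => ?_
  ring

theorem sub_one {n : Type} [Fintype n] [DecidableEq n] :
    sub (1 : Matrix n n k) = AlgHom.id k _ := by
  ext j : 1
  rw [sub_X]
  simp [Matrix.one_apply]

/-- The ring of polynomials invariant under all substitutions given by matrices in `G`. -/
def invRing {n : Type} [Fintype n] (G : Set (Matrix n n k)) : Subalgebra k (MvPolynomial n k) where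
  carrier := { P | ∀ M ∈ G, sub M P = P }
  mul_mem' ha hb M hM := by rw [map_mul, ha M hM, hb M hM]
  add_mem' ha hb M hM := by rw [map_add, ha M hM, hb M hM]
  algebraMap_mem' r M _ := AlgHom.commutes _ r

theorem mem_invRing {n : Type} [Fintype n] {G : Set (Matrix n n k)} {P : MvPolynomial n k} :
    P ∈ invRing G ↔ ∀ M ∈ G, sub M P = P := Iff.rfl

theorem invRing_equiv {m n : Type} [Fintype m] [Fintype n] [DecidableEq m] [DecidableEq n]
    (P : Matrix m n k) (Q : Matrix n m k) (hPQ : P * Q = 1) (hQP : Q * P = 1)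
    (G : Set (Matrix n n k)) :
    Nonempty (invRing ((fun M => P * M * Q) '' G) ≃ₐ[k] invRing G) := by
  have h1 : ∀ x, sub P (sub Q x) = x := by
    intro x
    have := congrArg (fun φ : MvPolynomial m k →ₐ[k] MvPolynomial m k => φ x) (sub_mul P Q)
    rw [hPQ, sub_one] at this
    exact this.symm
  have h2 : ∀ x, sub Q (sub P x) = x := by
    intro x
    have := congrArg (fun φ : MvPolynomial n k →ₐ[k] MvPolynomial n k => φ x) (sub_mul Q P)
    rw [hQP, sub_one] at this
    exact this.symm
  have h3 : ∀ M x, sub (P * M * Q) x = sub P (sub M (sub Q x)) := by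
    intro M x
    rw [sub_mul, sub_mul]; rfl
  refine ⟨AlgEquiv.ofAlgHom
    (((sub Q).comp (invRing ((fun M => P * M * Q) '' G)).val).codRestrict (invRing G) ?_)
    (((sub P).comp (invRing G).val).codRestrict (invRing ((fun M => P * M * Q) '' G)) ?_) ?_ ?_⟩
  · rintro ⟨x, hx⟩ M hM
    change sub M (sub Q x) = sub Q x
    have := hx (P * M * Q) ⟨M, hM, rfl⟩
    rw [h3] at this
    rw [← h2 (sub M (sub Q x)), this]
  · rintro ⟨x, hx⟩ _ ⟨M, hM, rfl⟩
    change sub (P * M * Q) (sub P x) = sub P x
    rw [h3, h2, hx M hM]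
  · apply AlgHom.ext; intro x; apply Subtype.ext; exact h2 x.1
  · apply AlgHom.ext; intro x; apply Subtype.ext; exact h1 x.1

end Sub

end Pool.Agent.MPb525bf
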