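import Pool.Agent.Lib.MP_b525bf_ag_h42.Translate

/-!
# Quotients of trivial bundles by groups of translations along a section
-/

set_option autoImplicit false
set_option linter.style.haveILetI false
set_option linter.unusedSectionVars false

open MvPolynomial AlgebraicGeometry CategoryTheory

namespace Pool.Agent.MPb525bf

universe u

variable {k : Type u} [Field k] {ι : Type}

theorem map_shift {C C' : Type u} [CommRing C] [CommRing C'] [Algebra k C] [Algebra k C']
    (φ : C →+* C') (hφ : ∀ c : k, φ (algebraMap k C c) = algebraMap k C' c)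
    (f : ι → C) (γ : k) (P : MvPolynomial ι C) :
    MvPolynomial.map φ (shift f γ P) = shift (fun j => φ (f j)) γ (MvPolynomial.map φ P) := by
  induction P using MvPolynomial.induction_on with
  | C c =>
    rw [← MvPolynomial.algebraMap_eq, AlgHom.commutes, MvPolynomial.algebraMap_eq,
      MvPolynomial.map_C, ← MvPolynomial.algebraMap_eq, AlgHom.commutes]
  | add p q hp hq => simp only [map_add, hp, hq]
  | mul_X p j hp =>
    rw [map_mul, map_mul, hp, map_mul, map_mul, shift_X, map_add, MvPolynomial.map_X,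
      MvPolynomial.map_C, map_mul, hφ, shift_X]

section

variable {A : Type u} [CommRing A] [IsDomain A] [Algebra k A]
  (I : Ideal A) (c : A) (hc : c ∈ (powFilt I).J 1)
  (KA : Type u) [Field KA] [Algebra A KA] [FaithfulSMul A KA]

/-- The embedding of polynomials over the chart ring into polynomials over the field. -/
noncomputable abbrev emb : MvPolynomial ι (chart (powFilt I) KA c hc) →+* MvPolynomial ι KA :=
  MvPolynomial.map (chart (powFilt I) KA c hc).val.toRingHom

theorem emb_injective : Function.Injective (emb (ι := ι) I c hc KA) :=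
  MvPolynomial.map_injective _ Subtype.val_injective

theorem exists_num (P : MvPolynomial ι (chart (powFilt I) KA c hc)) :
    ∃ m, ∃ Q ∈ (powFilt (I.map (MvPolynomial.C (σ := ι)))).J m,
      MvPolynomial.map (algebraMap A KA) Q = MvPolynomial.C (algebraMap A KA c ^ m) * emb I c hc KA P := by
  induction P using MvPolynomial.induction_on with
  | C x =>
    obtain ⟨m, a, ha, hx⟩ := x.2
    refine ⟨m, MvPolynomial.C a, ?_, ?_⟩
    · rw [mem_powFilt, ← Ideal.map_pow]
      exact Ideal.mem_map_of_mem _ ha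
    · rw [MvPolynomial.map_C, emb, MvPolynomial.map_C, ← hx, map_mul]
      change MvPolynomial.C (x : KA) * _ = _ * MvPolynomial.C (x : KA)
      ring
  | add p q hp hq =>
    obtain ⟨m, Q, hQ, h1⟩ := hp
    obtain ⟨n, Q', hQ', h2⟩ := hq
    have hcn : ∀ n, (MvPolynomial.C (c ^ n) : MvPolynomial ι A) ∈
        (powFilt (I.map (MvPolynomial.C (σ := ι)))).J n := by
      intro n
      rw [mem_powFilt, ← Ideal.map_pow]
      apply Ideal.mem_map_of_mem
      apply Ideal.pow_mem_pow
      simpa [mem_powFilt] using hc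
    refine ⟨m + n, MvPolynomial.C (c ^ n) * Q + MvPolynomial.C (c ^ m) * Q', ?_, ?_⟩
    · refine Ideal.add_mem _ ?_ (Filt.mul _ _ _ _ (hcn m) _ hQ')
      rw [add_comm m n]
      exact Filt.mul _ _ _ _ (hcn n) _ hQ
    · rw [map_add, map_mul, map_mul, h1, h2, map_add, MvPolynomial.map_C, MvPolynomial.map_C]
      simp only [map_pow, pow_add, map_mul]
      ring
  | mul_X p j hp =>
    obtain ⟨m, Q, hQ, h1⟩ := hp
    refine ⟨m, Q * X j, Ideal.mul_mem_right _ _ hQ, ?_⟩
    rw [map_mul, h1, MvPolynomial.map_X, map_mul, emb, MvPolynomial.map_X]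
    ring

theorem exists_frac (c0 : c ≠ 0) (m : ℕ) (Q : MvPolynomial ι A)
    (hQ : Q ∈ (powFilt (I.map (MvPolynomial.C (σ := ι)))).J m) :
    ∃ P : MvPolynomial ι (chart (powFilt I) KA c hc),
      MvPolynomial.map (algebraMap A KA) Q = MvPolynomial.C (algebraMap A KA c ^ m) * emb I c hc KA P := by
  rw [mem_powFilt, ← Ideal.map_pow, Ideal.map] at hQ
  have hK : algebraMap A KA c ≠ 0 := by
    rwa [Ne, FaithfulSMul.algebraMap_eq_zero_iff]
  refine Submodule.span_induction ?_ ?_ ?_ ?_ hQ
  · rintro _ ⟨r, hr, rfl⟩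
    refine ⟨MvPolynomial.C ⟨algebraMap A KA r / algebraMap A KA c ^ m, m, r, hr, ?_⟩, ?_⟩
    · rw [div_mul_cancel₀ _ (pow_ne_zero _ hK)]
    · rw [MvPolynomial.map_C, emb, MvPolynomial.map_C]
      change _ = MvPolynomial.C _ * MvPolynomial.C (algebraMap A KA r / algebraMap A KA c ^ m)
      rw [← map_mul, mul_div_cancel₀ _ (pow_ne_zero _ hK)]
  · exact ⟨0, by simp⟩
  · rintro x y _ _ ⟨P, hP⟩ ⟨P', hP'⟩
    exact ⟨P + P', by rw [map_add, hP, hP', map_add, mul_add]⟩
  · rintro q x _ ⟨P, hP⟩
    refine ⟨MvPolynomial.map (algebraMap A _) q * P, ?_⟩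
    rw [smul_eq_mul, map_mul, hP, map_mul, emb, MvPolynomial.map_map]
    have : ((chart (powFilt I) KA c hc).val.toRingHom).comp
      (algebraMap A (chart (powFilt I) KA c hc)) = algebraMap A KA := rfl
    rw [this]; ring

end

section

variable {A : Type u} [CommRing A] [IsDomain A] [Algebra k A]
  (I : Ideal A) (c : A) (hc : c ∈ (powFilt I).J 1) (c0 : c ≠ 0)
  (KA : Type u) [Field KA] [Algebra A KA] [FaithfulSMul A KA]
  (f : ι → A) (Γ : AddSubgroup k)
  (K : Type u) [Field K] [Algebra (MvPolynomial ι KA) K] [FaithfulSMul (MvPolynomial ι KA) K]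
  [Algebra (inv f Γ) K] [FaithfulSMul (inv f Γ) K]
  (hK : ∀ P : inv f Γ, algebraMap (inv f Γ) K P =
    algebraMap (MvPolynomial ι KA) K (MvPolynomial.map (algebraMap A KA) P.1))

/-- The `k`-algebra structure on the chart ring. -/
noncomputable abbrev chartAlg : Algebra k (chart (powFilt I) KA c hc) :=
  ((algebraMap A (chart (powFilt I) KA c hc)).comp (algebraMap k A)).toAlgebra

/-- The filtration on the ring of invariants. -/
noncomputable abbrev invFilt : Filt (inv f Γ) :=
  (powFilt (I.map (MvPolynomial.C (σ := ι)))).comap (algebraMap (inv f Γ) (MvPolynomial ι A))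

include hK c0 in
theorem exists_chart_equiv (hcR : algebraMap A (inv f Γ) c ∈ (invFilt I f Γ).J 1) :
    letI := chartAlg (k := k) I c hc KA
    ∃ e : inv (fun j => algebraMap A (chart (powFilt I) KA c hc) (f j)) Γ ≃+*
      chart (invFilt I f Γ) K (algebraMap A (inv f Γ) c) hcR,
      ∀ x, (e x : K) = algebraMap (MvPolynomial ι KA) K (emb I c hc KA x.1) := by
  letI := chartAlg (k := k) I c hc KA
  letI : Algebra k KA := ((algebraMap A KA).comp (algebraMap k A)).toAlgebra
  set Φ : inv (fun j => algebraMap A (chart (powFilt I) KA c hc) (f j)) Γ →+* K :=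
    ((algebraMap (MvPolynomial ι KA) K).comp (emb I c hc KA)).comp
      (inv (fun j => algebraMap A (chart (powFilt I) KA c hc) (f j)) Γ).val.toRingHom with hΦ
  have hΦi : Function.Injective Φ := by
    intro x y hxy
    apply Subtype.ext
    exact emb_injective I c hc KA (FaithfulSMul.algebraMap_injective (MvPolynomial ι KA) K hxy)
  have hKA0 : algebraMap A KA c ≠ 0 := by
    rwa [Ne, FaithfulSMul.algebraMap_eq_zero_iff]
  have hcK : algebraMap (inv f Γ) K (algebraMap A (inv f Γ) c) =
      algebraMap (MvPolynomial ι KA) K (MvPolynomial.C (algebraMap A KA c)) := by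
    rw [hK]
    change algebraMap (MvPolynomial ι KA) K
      (MvPolynomial.map (algebraMap A KA) (MvPolynomial.C c)) = _
    rw [MvPolynomial.map_C]
  have hinjA : Function.Injective (MvPolynomial.map (σ := ι) (algebraMap A KA)) :=
    MvPolynomial.map_injective _ (FaithfulSMul.algebraMap_injective A KA)
  have hC0 : ∀ m : ℕ, (MvPolynomial.C (algebraMap A KA c ^ m) : MvPolynomial ι KA) ≠ 0 := by
    intro m h
    rw [MvPolynomial.C_eq_zero] at h
    exact pow_ne_zero _ hKA0 h
  -- compatibility of shifts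
  have hsh1 : ∀ (γ : k) (Q : MvPolynomial ι A), MvPolynomial.map (algebraMap A KA) (shift f γ Q) =
      shift (fun j => algebraMap A KA (f j)) γ (MvPolynomial.map (algebraMap A KA) Q) :=
    fun γ Q => map_shift (k := k) (algebraMap A KA) (fun _ => rfl) f γ Q
  have hsh2 : ∀ (γ : k) (P : MvPolynomial ι (chart (powFilt I) KA c hc)),
      emb I c hc KA (shift (fun j => algebraMap A (chart (powFilt I) KA c hc) (f j)) γ P) =
      shift (fun j => algebraMap A KA (f j)) γ (emb I c hc KA P) :=
    fun γ P => map_shift (k := k) (C := chart (powFilt I) KA c hc) (C' := KA)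
      (chart (powFilt I) KA c hc).val.toRingHom (fun _ => rfl) _ γ P
  have hsC : ∀ (γ : k) (r : KA) (P : MvPolynomial ι KA),
      shift (fun j => algebraMap A KA (f j)) γ (MvPolynomial.C r * P) =
      MvPolynomial.C r * shift (fun j => algebraMap A KA (f j)) γ P := by
    intro γ r P
    rw [map_mul, ← MvPolynomial.algebraMap_eq]
    congr 1
    exact AlgHom.commutes (shift (fun j => algebraMap A KA (f j)) γ) r
  have hrange : ∀ x : K, (∃ y, Φ y = x) ↔
      x ∈ chart (invFilt I f Γ) K (algebraMap A (inv f Γ) c) hcR := by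
    intro x
    constructor
    · rintro ⟨y, rfl⟩
      obtain ⟨m, Q, hQ, h1⟩ := exists_num (ι := ι) I c hc KA y.1
      have hQi : Q ∈ inv f Γ := by
        intro γ hγ
        apply hinjA
        rw [hsh1, h1, hsC, ← hsh2, y.2 γ hγ]
      refine ⟨m, ⟨Q, hQi⟩, hQ, ?_⟩
      rw [hcK, hK, h1, map_mul]
      change algebraMap (MvPolynomial ι KA) K (emb I c hc KA y.1) * _ = _
      rw [map_pow, map_pow]; ring
    · rintro ⟨m, a, ha, hx⟩
      obtain ⟨P, hP⟩ := exists_frac (ι := ι) I c hc KA c0 m a.1 ha
      have hPi : P ∈ inv (fun j => algebraMap A (chart (powFilt I) KA c hc) (f j)) Γ := by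
        intro γ hγ
        apply emb_injective I c hc KA
        apply mul_left_cancel₀ (hC0 m)
        rw [hsh2, ← hsC, ← hP, ← hsh1, a.2 γ hγ]
      refine ⟨⟨P, hPi⟩, ?_⟩
      rw [hcK, hK, hP, map_mul] at hx
      have h2 : algebraMap (MvPolynomial ι KA) K (MvPolynomial.C (algebraMap A KA c ^ m)) ≠ 0 := by
        rw [Ne, FaithfulSMul.algebraMap_eq_zero_iff]; exact hC0 m
      apply mul_left_cancel₀ h2
      change _ * algebraMap (MvPolynomial ι KA) K (emb I c hc KA P) = _
      rw [← hx, map_pow, map_pow]; ring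
  refine ⟨RingEquiv.ofBijective (Φ.codRestrict
    (chart (invFilt I f Γ) K (algebraMap A (inv f Γ) c) hcR) (fun x => (hrange _).1 ⟨x, rfl⟩))
    ⟨fun x y h => hΦi (congrArg Subtype.val h), fun y => ?_⟩, fun x => rfl⟩
  obtain ⟨x, hx⟩ := (hrange y.1).2 y.2
  exact ⟨x, Subtype.ext hx⟩

end

end Pool.Agent.MPb525bf
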