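import Pool.Agent.Lib.MP_b525bf_ag_h42.Rees

/-!
# Charts of the Proj of a Rees algebra as subrings of the fraction field
-/

set_option autoImplicit false
set_option linter.unusedSectionVars false

open Polynomial HomogeneousLocalization

namespace Pool.Agent.MPb525bf

universe u

variable {R : Type u} [CommRing R] [IsDomain R] (F : Filt R)
variable (K : Type u) [Field K] [Algebra R K] [FaithfulSMul R K]

theorem Filt.pow_mem {R : Type u} [CommRing R] (F : Filt R) {g : R} (hg : g ∈ F.J 1) (n : ℕ) :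
    g ^ n ∈ F.J n := by
  induction n with
  | zero => simp [F.zero]
  | succ n ih => rw [pow_succ]; exact F.mul _ _ _ ih _ hg

/-- The chart ring `{a / gᵐ : a ∈ Jₘ}` of the blow-up of the filtration at `g ∈ J₁`. -/
def chart (g : R) (hg : g ∈ F.J 1) : Subalgebra R K where
  carrier := { x | ∃ m, ∃ a ∈ F.J m, x * (algebraMap R K g) ^ m = algebraMap R K a }
  mul_mem' := by
    rintro x y ⟨m, a, ha, hx⟩ ⟨n, b, hb, hy⟩
    refine ⟨m + n, a * b, F.mul _ _ _ ha _ hb, ?_⟩
    rw [pow_add, map_mul, ← hx, ← hy]; ring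
  one_mem' := ⟨0, 1, by simp [F.zero], by simp⟩
  add_mem' := by
    rintro x y ⟨m, a, ha, hx⟩ ⟨n, b, hb, hy⟩
    refine ⟨m + n, a * g ^ n + b * g ^ m, Ideal.add_mem _ (F.mul _ _ _ ha _ (F.pow_mem hg n)) ?_, ?_⟩
    · rw [add_comm m n]; exact F.mul _ _ _ hb _ (F.pow_mem hg m)
    · rw [pow_add, map_add, map_mul, map_mul, ← hx, ← hy, map_pow, map_pow]; ring
  zero_mem' := ⟨0, 0, by simp, by simp⟩
  algebraMap_mem' r := ⟨0, r, by simp [F.zero], by simp⟩

theorem mem_chart {g : R} {hg : g ∈ F.J 1} {x : K} :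
    x ∈ chart F K g hg ↔ ∃ m, ∃ a ∈ F.J m, x * (algebraMap R K g) ^ m = algebraMap R K a := Iff.rfl

/-- The element `g T` of the Rees algebra. -/
noncomputable abbrev gT (g : R) (hg : g ∈ F.J 1) : rees F := mon F 1 ⟨g, hg⟩

theorem gT_mem (g : R) (hg : g ∈ F.J 1) : gT F g hg ∈ gr F 1 := mon_mem_gr F 1 _

/-- Evaluation of the Rees algebra at `T = 1/g`. -/
noncomputable def evK (g : R) : rees F →+* K :=
  (eval₂RingHom (algebraMap R K) (algebraMap R K g)⁻¹).comp (rees F).subtype

theorem evK_apply (g : R) (f : rees F) :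
    evK F K g f = f.1.eval₂ (algebraMap R K) (algebraMap R K g)⁻¹ := rfl

theorem evK_of_mem_gr {g : R} {n : ℕ} {f : rees F} (hf : f ∈ gr F n) :
    evK F K g f = algebraMap R K (f.1.coeff n) * (algebraMap R K g)⁻¹ ^ n := by
  rw [evK_apply]
  conv_lhs => rw [mem_gr_iff.1 hf]
  rw [eval₂_monomial]

theorem evK_gT {g : R} (hg : g ∈ F.J 1) (g0 : g ≠ 0) : evK F K g (gT F g hg) = 1 := by
  rw [evK_of_mem_gr F K (gT_mem F g hg)]
  have : algebraMap R K g ≠ 0 := by
    rwa [Ne, FaithfulSMul.algebraMap_eq_zero_iff]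
  simp [gT, mon, this]

/-- The ring homomorphism from the degree zero part of the localisation to the fraction field. -/
noncomputable def psi {g : R} (hg : g ∈ F.J 1) (g0 : g ≠ 0) : Away (gr F) (gT F g hg) →+* K :=
  (IsLocalization.Away.lift (S := Localization (Submonoid.powers (gT F g hg)))
    (gT F g hg) (g := evK F K g) (by rw [evK_gT F K hg g0]; exact isUnit_one)).comp
    (algebraMap (Away (gr F) (gT F g hg)) (Localization (Submonoid.powers (gT F g hg))))

theorem psi_mk {g : R} (hg : g ∈ F.J 1) (g0 : g ≠ 0) (n : ℕ) (a : rees F) (ha : a ∈ gr F (n • 1)) :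
    psi F K hg g0 (Away.mk (gr F) (gT_mem F g hg) n a ha)
      = algebraMap R K (a.1.coeff n) * (algebraMap R K g)⁻¹ ^ n := by
  have ha' : a ∈ gr F n := by simpa using ha
  rw [psi, RingHom.comp_apply, HomogeneousLocalization.algebraMap_apply, Away.val_mk]
  let d : Submonoid.powers (gT F g hg) := ⟨gT F g hg ^ n, by exact ⟨n, rfl⟩⟩
  have h2 : (IsLocalization.Away.lift (S := Localization (Submonoid.powers (gT F g hg)))
    (gT F g hg) (g := evK F K g) (by rw [evK_gT F K hg g0]; exact isUnit_one))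
      (algebraMap _ _ a) = evK F K g a := IsLocalization.Away.lift_eq _ _ _
  have h3 : (algebraMap (rees F) (Localization (Submonoid.powers (gT F g hg))) a)
      = Localization.mk a d *
        (algebraMap (rees F) (Localization (Submonoid.powers (gT F g hg))) (gT F g hg ^ n)) := by
    rw [Localization.mk_eq_mk']
    exact (IsLocalization.mk'_spec (M := Submonoid.powers (gT F g hg)) _ a d).symm
  rw [h3, map_mul, IsLocalization.Away.lift_eq, map_pow] at h2
  have h4 := evK_gT F K hg g0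
  rw [evK_of_mem_gr F K ha'] at h2
  rw [← h2]
  simp only [h4, one_pow, mul_one]
  rfl

theorem psi_injective {g : R} (hg : g ∈ F.J 1) (g0 : g ≠ 0) :
    Function.Injective (psi F K hg g0) := by
  rw [injective_iff_map_eq_zero]
  intro x hx
  obtain ⟨n, a, ha, rfl⟩ := Away.mk_surjective (gr F) (gT_mem F g hg) x
  rw [psi_mk] at hx
  have hgK : (algebraMap R K g)⁻¹ ^ n ≠ 0 := by
    apply pow_ne_zero
    apply inv_ne_zero
    rwa [Ne, FaithfulSMul.algebraMap_eq_zero_iff]
  have h0 : a.1.coeff n = 0 := by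
    have := (mul_eq_zero.1 hx).resolve_right hgK
    rwa [FaithfulSMul.algebraMap_eq_zero_iff] at this
  have ha' : a ∈ gr F n := by simpa using ha
  have : a = 0 := by
    apply Subtype.ext
    rw [mem_gr_iff.1 ha', h0]; simp
  subst this
  apply HomogeneousLocalization.val_injective
  rw [Away.val_mk, HomogeneousLocalization.val_zero]
  exact Localization.mk_zero _

theorem psi_range {g : R} (hg : g ∈ F.J 1) (g0 : g ≠ 0) :
    ∀ x : K, (∃ y, psi F K hg g0 y = x) ↔ x ∈ chart F K g hg := by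
  have hgK : algebraMap R K g ≠ 0 := by
    rwa [Ne, FaithfulSMul.algebraMap_eq_zero_iff]
  intro x
  constructor
  · rintro ⟨y, rfl⟩
    obtain ⟨n, a, ha, rfl⟩ := Away.mk_surjective (gr F) (gT_mem F g hg) y
    refine ⟨n, a.1.coeff n, a.2 n, ?_⟩
    rw [psi_mk]
    rw [mul_assoc, inv_pow, inv_mul_cancel₀ (pow_ne_zero _ hgK), mul_one]
  · rintro ⟨n, a, ha, hx⟩
    refine ⟨Away.mk (gr F) (gT_mem F g hg) n (mon F n ⟨a, ha⟩)
      (by simpa using mon_mem_gr F n ⟨a, ha⟩), ?_⟩
    rw [psi_mk]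
    have : (mon F n ⟨a, ha⟩).1.coeff n = a := by simp [mon]
    rw [this, ← hx, mul_assoc, inv_pow, mul_inv_cancel₀ (pow_ne_zero _ hgK), mul_one]

/-- The degree zero localisation is isomorphic to the chart ring. -/
noncomputable def awayEquiv {g : R} (hg : g ∈ F.J 1) (g0 : g ≠ 0) :
    Away (gr F) (gT F g hg) ≃+* chart F K g hg :=
  RingEquiv.ofBijective
    ((psi F K hg g0).codRestrict (chart F K g hg) (fun x => (psi_range F K hg g0 _).1 ⟨x, rfl⟩))
    ⟨fun x y h => psi_injective F K hg g0 (congrArg Subtype.val h), fun y => by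
      obtain ⟨x, hx⟩ := (psi_range F K hg g0 y.1).2 y.2
      exact ⟨x, Subtype.ext hx⟩⟩

theorem awayEquiv_coe {g : R} (hg : g ∈ F.J 1) (g0 : g ≠ 0) (x : Away (gr F) (gT F g hg)) :
    (awayEquiv F K hg g0 x : K) = psi F K hg g0 x := rfl

/-- `R` is the degree zero part of the Rees algebra. -/
noncomputable def zeroEquiv : R ≃+* gr F 0 :=
  RingEquiv.ofBijective (algebraMap R (gr F 0))
    ⟨fun x y h => by
      have h1 := congrArg (fun z : gr F 0 => z.1.1.coeff 0) h
      change (C x : R[X]).coeff 0 = (C y : R[X]).coeff 0 at h1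
      simpa using h1, fun y => ⟨y.1.1.coeff 0, by
        apply Subtype.ext; apply Subtype.ext
        change (C (y.1.1.coeff 0) : R[X]) = y.1.1
        conv_rhs => rw [mem_gr_iff.1 y.2]
        simp⟩⟩

theorem zeroEquiv_coe (r : R) : ((zeroEquiv F r : gr F 0) : rees F) = algebraMap R (rees F) r := rfl

theorem psi_zero {g : R} (hg : g ∈ F.J 1) (g0 : g ≠ 0) (r : R) :
    psi F K hg g0 (fromZeroRingHom (gr F) _ (zeroEquiv F r)) = algebraMap R K r := by
  have h : fromZeroRingHom (gr F) (Submonoid.powers (gT F g hg)) (zeroEquiv F r)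
      = Away.mk (gr F) (gT_mem F g hg) 0 (algebraMap R (rees F) r)
        (by rw [zero_smul]; exact (zeroEquiv F r).2) := by
    apply HomogeneousLocalization.val_injective
    rw [Away.val_mk]
    simp [fromZeroRingHom, zeroEquiv_coe]
  rw [h, psi_mk]
  have : (algebraMap R (rees F) r).1.coeff 0 = r := by
    change (C r : R[X]).coeff 0 = r
    simp
  rw [this]; simp

end Pool.Agent.MPb525bf
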