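import Mathlib

/-!
# Descent of formal smoothness along monic hypersurfaces
-/

set_option autoImplicit false
set_option linter.style.haveILetI false

open Polynomial

namespace Pool.Agent.MPb525bf

universe u

/-- If `A[X]/(F)` is formally smooth over `k`, with `F` monic of positive degree, then `A` is
formally smooth over `k`: in a square-zero lifting problem one lifts `A[X]/(F)` and takes the
coefficient of `x⁰`, which is multiplicative. -/
theorem formallySmooth_of_adjoinRoot {k A : Type u} [CommRing k] [CommRing A] [Algebra k A]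
    (F : A[X]) (hF : F.Monic) (hdeg : 0 < F.natDegree) [Algebra.FormallySmooth k (AdjoinRoot F)] :
    Algebra.FormallySmooth k A := by
  apply Algebra.FormallySmooth.of_comp_surjective
  intro C _ _ I hI f
  obtain ⟨q, hq1, hq2, hq3⟩ : ∃ q : C[X], q.map (Ideal.Quotient.mk I) = F.map (f : A →+* C ⧸ I) ∧
      q.natDegree = (F.map (f : A →+* C ⧸ I)).natDegree ∧ q.Monic := by
    apply Polynomial.lifts_and_natDegree_eq_and_monic
    · rw [Polynomial.lifts_iff_coeff_lifts]
      intro n
      exact Ideal.Quotient.mk_surjective _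
    · exact hF.map _
  by_cases hnt : Nontrivial (C ⧸ I)
  swap
  · -- trivial quotient, then C itself is trivial
    rw [not_nontrivial_iff_subsingleton, Ideal.Quotient.subsingleton_iff] at hnt
    have h1 : (1 : C) ∈ (⊥ : Ideal C) := by
      rw [← hI, hnt, Ideal.top_pow]; trivial
    have : Subsingleton C := subsingleton_of_zero_eq_one ((Ideal.mem_bot.1 h1).symm)
    have hs : Subsingleton (C ⧸ I) := by
      rw [Ideal.Quotient.subsingleton_iff]; exact hnt
    refine ⟨{ toFun := fun _ => 0, map_one' := Subsingleton.elim _ _,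
              map_mul' := fun _ _ => Subsingleton.elim _ _, map_zero' := rfl,
              map_add' := fun _ _ => Subsingleton.elim _ _,
              commutes' := fun _ => Subsingleton.elim _ _ }, ?_⟩
    ext a
    exact Subsingleton.elim _ _
  have hntC : Nontrivial C := (Ideal.Quotient.mk I).domain_nontrivial
  have hqdeg : 0 < q.natDegree := by
    rw [hq2, hF.natDegree_map]; exact hdeg
  let D := AdjoinRoot q
  let ID : Ideal D := I.map (AdjoinRoot.of q)
  have hID : ID ^ 2 = ⊥ := by
    rw [← Ideal.map_pow, hI, Ideal.map_bot]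
  -- the map `A → D / ID`
  let φ : C →ₐ[k] D := (AdjoinRoot.ofAlgHom k q)
  let fbar : A →ₐ[k] D ⧸ ID :=
    (Ideal.quotientMapₐ ID φ (by exact Ideal.le_comap_map)).comp f
  let xbar : D ⧸ ID := Ideal.Quotient.mk ID (AdjoinRoot.root q)
  have hroot : F.eval₂ (fbar : A →+* D ⧸ ID) xbar = 0 := by
    have e1 : (fbar : A →+* D ⧸ ID) =
        (Ideal.quotientMapₐ ID φ (by exact Ideal.le_comap_map) : C ⧸ I →+* D ⧸ ID).comp
          (f : A →+* C ⧸ I) := rfl
    rw [e1, ← Polynomial.eval₂_map, ← hq1, Polynomial.eval₂_map]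
    have e2 : ((Ideal.quotientMapₐ ID φ (by exact Ideal.le_comap_map) : C ⧸ I →+* D ⧸ ID)).comp
        (Ideal.Quotient.mk I) = (Ideal.Quotient.mk ID).comp (AdjoinRoot.of q) := by
      ext c; rfl
    rw [e2, ← Polynomial.hom_eval₂, AdjoinRoot.eval₂_root, map_zero]
  let g0 : AdjoinRoot F →ₐ[k] D ⧸ ID :=
    AdjoinRoot.liftAlgHom F fbar xbar hroot
  obtain ⟨g, hg⟩ := Algebra.FormallySmooth.comp_surjective k (AdjoinRoot F) ID hID g0
  -- coefficient of `x⁰`
  let c0 : D →ₗ[C] C := (Polynomial.lcoeff C 0).comp (AdjoinRoot.modByMonicHom hq3)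
  have c0of : ∀ c : C, c0 (AdjoinRoot.of q c) = c := by
    intro c
    change (AdjoinRoot.modByMonicHom hq3 (AdjoinRoot.mk q (Polynomial.C c))).coeff 0 = c
    rw [AdjoinRoot.modByMonicHom_mk, (Polynomial.modByMonic_eq_self_iff hq3).2, coeff_C_zero]
    apply lt_of_le_of_lt degree_C_le
    rw [← Polynomial.natDegree_pos_iff_degree_pos]; exact hqdeg
  have hga : ∀ a : A, ∀ c : C, Ideal.Quotient.mk I c = f a →
      g (AdjoinRoot.of F a) - AdjoinRoot.of q c ∈ ID := by
    intro a c hc
    rw [← Ideal.Quotient.eq]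
    have h1 : Ideal.Quotient.mk ID (g (AdjoinRoot.of F a)) = g0 (AdjoinRoot.of F a) :=
      DFunLike.congr_fun hg (AdjoinRoot.of F a)
    rw [h1]
    have h2 : g0 (AdjoinRoot.of F a) = fbar a := by
      simp only [g0]
      erw [AdjoinRoot.liftAlgHom_of]
    rw [h2]
    change Ideal.quotientMapₐ ID φ Ideal.le_comap_map (f a) = _
    rw [← hc]
    rfl
  have hc0ID : ∀ d ∈ ID, c0 d ∈ I := by
    intro d hd
    have hd' : d ∈ (I • ⊤ : Submodule C D) := by
      rw [Ideal.smul_top_eq_map]
      exact hd
    induction hd' using Submodule.smul_induction_on' with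
    | smul r hr n hn =>
      rw [map_smul, smul_eq_mul]
      exact Ideal.mul_mem_right _ _ hr
    | add x hx y hy h1 h2 =>
      rw [map_add]
      refine add_mem (h1 ?_) (h2 ?_)
      · rw [Ideal.smul_top_eq_map] at hx; exact hx
      · rw [Ideal.smul_top_eq_map] at hy; exact hy
  let h : A → C := fun a => c0 (g (AdjoinRoot.of F a))
  have hmk : ∀ a, Ideal.Quotient.mk I (h a) = f a := by
    intro a
    obtain ⟨c, hc⟩ := Ideal.Quotient.mk_surjective (f a)
    have h1 := hc0ID _ (hga a c hc)
    rw [map_sub, c0of] at h1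
    rw [← hc, Ideal.Quotient.eq]
    exact h1
  have hu : ∀ a, g (AdjoinRoot.of F a) - AdjoinRoot.of q (h a) ∈ ID := fun a => hga a _ (hmk a)
  have hu0 : ∀ a, c0 (g (AdjoinRoot.of F a) - AdjoinRoot.of q (h a)) = 0 := by
    intro a
    rw [map_sub, c0of]
    exact sub_self _
  have hmulzero : ∀ x ∈ ID, ∀ y ∈ ID, x * y = 0 := by
    intro x hx y hy
    have : x * y ∈ ID ^ 2 := by rw [pow_two]; exact Ideal.mul_mem_mul hx hy
    rw [hID] at this
    exact this
  have hmul : ∀ a b, h (a * b) = h a * h b := by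
    intro a b
    have e1 : g (AdjoinRoot.of F (a * b)) =
        AdjoinRoot.of q (h a * h b) + (h a) • (g (AdjoinRoot.of F b) - AdjoinRoot.of q (h b))
          + (h b) • (g (AdjoinRoot.of F a) - AdjoinRoot.of q (h a)) := by
      have e2 := hmulzero _ (hu a) _ (hu b)
      rw [Algebra.smul_def, Algebra.smul_def, map_mul (AdjoinRoot.of F), map_mul g,
        map_mul (AdjoinRoot.of q), AdjoinRoot.algebraMap_eq]
      linear_combination e2
    change c0 (g (AdjoinRoot.of F (a * b))) = _
    rw [e1, map_add, map_add, map_smul, map_smul, hu0, hu0, c0of]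
    simp
  refine ⟨{ toFun := h
            map_one' := ?_
            map_mul' := hmul
            map_zero' := ?_
            map_add' := ?_
            commutes' := ?_ }, ?_⟩
  · change c0 (g (AdjoinRoot.of F 1)) = 1
    rw [map_one, map_one, ← map_one (AdjoinRoot.of q), c0of]
  · change c0 (g (AdjoinRoot.of F 0)) = 0
    rw [map_zero, map_zero, map_zero]
  · intro a b
    change c0 (g (AdjoinRoot.of F (a + b))) = c0 (g (AdjoinRoot.of F a)) + c0 (g (AdjoinRoot.of F b))
    rw [map_add, map_add, map_add]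
  · intro r
    change c0 (g (AdjoinRoot.of F (algebraMap k A r))) = algebraMap k C r
    have e3 : AdjoinRoot.of F (algebraMap k A r) = algebraMap k (AdjoinRoot F) r := rfl
    have e4 : algebraMap k D r = AdjoinRoot.of q (algebraMap k C r) := rfl
    rw [e3, AlgHom.commutes, e4, c0of]
  · ext a
    exact hmk a

end Pool.Agent.MPb525bf
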