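import Pool.Agent.Lib.MP_b525bf_ag_h42.LinMain

/-!
# Final form of the first result
-/

set_option autoImplicit false
set_option linter.unusedSectionVars false

open MvPolynomial AlgebraicGeometry CategoryTheory

namespace Pool.Agent.MPb525bf

/-- The subring `A[c_j / c_i : j]` of the fraction field of `A`, the `i`-th chart of the blow-up of
the ideal `(c_j : j)`. -/
noncomputable def blowupRing {A : Type} [CommRing A] [IsDomain A] {κ : Type} (c : κ → A) (i : κ) :
    Subalgebra A (FractionRing A) :=
  Algebra.adjoin A (Set.range fun j => algebraMap A (FractionRing A) (c j) /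
    algebraMap A (FractionRing A) (c i))

/-- Every chart ring `A[c_j / c_i]` is smooth over `k`, and in each of them the ideal `(f_j : j)` is
generated by one of the nonzero `f_j`. -/
def ResolvedBy (k : Type) [Field k] {A : Type} [CommRing A] [IsDomain A] [Algebra k A]
    {ι κ : Type} (f : ι → A) (c : κ → A) : Prop :=
  ∀ i, c i ≠ 0 ∧ ((algebraMap A (blowupRing c i)).comp (algebraMap k A)).Smooth ∧
    ∃ j₀, f j₀ ≠ 0 ∧ ∀ j, ∃ t ∈ blowupRing c i,
      algebraMap A (FractionRing A) (f j) = t * algebraMap A (FractionRing A) (f j₀)

/-- The statement for quotients of trivial bundles. -/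
def BundleStatement : Prop :=
  ∀ (k : Type) [Field k] (A : Type) [CommRing A] [IsDomain A] [Algebra k A]
    [Algebra.FiniteType k A] (ι κ : Type) [Finite ι] [Finite κ] [Nonempty κ]
    (f : ι → A) (c : κ → A) (Γ : AddSubgroup k) [Finite Γ],
    ResolvedBy k f c →
      HasResolution (Spec.map (CommRingCat.ofHom (algebraMap k (inv f Γ))))

/-- The statement for linear quotients. -/
def LinearStatement : Prop :=
  ∀ (k : Type) [Field k] (n : ℕ) (N : Matrix (Fin n) (Fin n) k), N * N = 0 →
    ∀ (Γ : AddSubgroup k) [Finite Γ],
      HasResolution (Spec.map (CommRingCat.ofHom (algebraMap k (invRing (matGroup N Γ)))))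

theorem bundle : BundleStatement := by
  intro k _ A _ _ _ _ ι κ _ _ _ f c Γ _ h
  apply hasResolution_translation f c (fun i => (h i).1) Γ (FractionRing A)
  · intro i
    have h0 : algebraMap A (FractionRing A) (c i) ≠ 0 := by
      rw [Ne, FaithfulSMul.algebraMap_eq_zero_iff]; exact (h i).1
    have h1 : blowupChart c (FractionRing A) i = blowupRing c i :=
      blowupChart_eq c (FractionRing A) i h0
    have h2 := (h i).2.1
    have key : ∀ S : Subalgebra A (FractionRing A), S = blowupRing c i →
        ((algebraMap A S).comp (algebraMap k A)).Smooth := by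
      rintro S rfl; exact h2
    exact key _ h1
  · intro i
    have h0 : algebraMap A (FractionRing A) (c i) ≠ 0 := by
      rw [Ne, FaithfulSMul.algebraMap_eq_zero_iff]; exact (h i).1
    have h1 : blowupChart c (FractionRing A) i = blowupRing c i :=
      blowupChart_eq c (FractionRing A) i h0
    obtain ⟨j0, hj0, h2⟩ := (h i).2.2
    refine ⟨j0, hj0, fun j => ?_⟩
    obtain ⟨t, ht, h3⟩ := h2 j
    exact ⟨t, by rw [h1]; exact ht, h3⟩

theorem linear : LinearStatement := by
  intro k _ n N hN Γ _
  exact hasResolution_quadratic N hN Γ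

theorem final1 : BundleStatement ∧ LinearStatement := ⟨bundle, linear⟩

end Pool.Agent.MPb525bf
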