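import Pool.Agent.Lib.MP_b525bf_ag_h42.Resolve

/-!
# Filtrations on rings with a finite group action and on their rings of invariants
-/

set_option autoImplicit false
set_option linter.style.haveILetI false

open Polynomial

namespace Pool.Agent.MPb525bf

universe u

theorem finiteType_of_integral {k S Q : Type*} [Field k] [CommRing S] [CommRing Q] [Algebra k S]
    [Algebra S Q] [Algebra k Q] [IsScalarTower k S Q] (hinj : Function.Injective (algebraMap S Q))
    [Algebra.IsIntegral S Q] [h : Algebra.FiniteType k Q] : Algebra.FiniteType k S := by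
  have h1 : Algebra.FiniteType S Q := Algebra.FiniteType.of_restrictScalars_finiteType k S Q
  have h2 : Module.Finite S Q := Algebra.IsIntegral.finite
  exact ⟨fg_of_fg_of_fg k S Q h.out h2.1 hinj⟩

/-- The contraction of a filtration. -/
def Filt.comap {R B : Type*} [CommRing R] [CommRing B] (φ : R →+* B) (𝓕 : Filt B) : Filt R where
  J n := (𝓕.J n).comap φ
  zero := by rw [𝓕.zero, Ideal.comap_top]
  anti _ _ h := Ideal.comap_mono (𝓕.anti h)
  mul m n a ha b hb := by
    rw [Ideal.mem_comap] at *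
    rw [map_mul]
    exact 𝓕.mul m n _ ha _ hb

theorem Filt.mem_comap {R B : Type*} [CommRing R] [CommRing B] {φ : R →+* B} {𝓕 : Filt B} {n : ℕ}
    {r : R} : r ∈ (𝓕.comap φ).J n ↔ φ r ∈ 𝓕.J n := Iff.rfl

/-- The map of Rees algebras. -/
noncomputable def reesMap {R B : Type*} [CommRing R] [CommRing B] (φ : R →+* B) (𝓕 : Filt B) :
    rees (𝓕.comap φ) →+* rees 𝓕 :=
  ((Polynomial.mapRingHom φ).comp (rees (𝓕.comap φ)).val.toRingHom).codRestrict (rees 𝓕) (by
    rintro ⟨f, hf⟩ i
    change (f.map φ).coeff i ∈ _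
    rw [coeff_map]
    exact hf i)

theorem reesMap_coe {R B : Type*} [CommRing R] [CommRing B] (φ : R →+* B) (𝓕 : Filt B)
    (f : rees (𝓕.comap φ)) : (reesMap φ 𝓕 f : B[X]) = f.1.map φ := rfl

theorem reesMap_mon {R B : Type*} [CommRing R] [CommRing B] (φ : R →+* B) (𝓕 : Filt B) (n : ℕ)
    (r : (𝓕.comap φ).J n) : reesMap φ 𝓕 (mon _ n r) = mon 𝓕 n ⟨φ r.1, r.2⟩ := by
  apply Subtype.ext
  rw [reesMap_coe]
  change (monomial n r.1).map φ = monomial n (φ r.1)
  rw [Polynomial.map_monomial]

theorem reesMap_injective {R B : Type*} [CommRing R] [CommRing B] (φ : R →+* B) (𝓕 : Filt B)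
    (hφ : Function.Injective φ) : Function.Injective (reesMap φ 𝓕) := by
  intro f g hfg
  apply Subtype.ext
  apply Polynomial.map_injective φ hφ
  rw [← reesMap_coe, hfg, reesMap_coe]

section Action

variable {B : Type*} [CommRing B] (G : Type*) [Group G] [MulSemiringAction G B] (𝓕 : Filt B)

/-- The filtration is stable under the group action. -/
def Stable : Prop := ∀ (g : G) (n : ℕ), ∀ b ∈ 𝓕.J n, g • b ∈ 𝓕.J n

variable {G 𝓕}

/-- The induced action on the Rees algebra. -/
noncomputable abbrev reesAction (h : Stable G 𝓕) : MulSemiringAction G (rees 𝓕) where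
  smul g f := ⟨g • f.1, fun i => by rw [coeff_smul]; exact h g i _ (f.2 i)⟩
  one_smul f := Subtype.ext (one_smul G f.1)
  mul_smul g h f := Subtype.ext (mul_smul g h f.1)
  smul_zero g := Subtype.ext (smul_zero g)
  smul_add g a b := Subtype.ext (smul_add g a.1 b.1)
  smul_one g := Subtype.ext (smul_one g)
  smul_mul g a b := Subtype.ext (smul_mul' g a.1 b.1)

variable {R : Type*} [CommRing R] [Algebra R B] [Algebra.IsInvariant R B G]

theorem reesMap_isIntegral [Finite G] (h : Stable G 𝓕) :
    (reesMap (algebraMap R B) 𝓕).IsIntegral := by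
  letI := reesAction h
  letI := (reesMap (algebraMap R B) 𝓕).toAlgebra
  have : Algebra.IsInvariant (rees (𝓕.comap (algebraMap R B))) (rees 𝓕) G := by
    constructor
    intro f hf
    have h1 : ∀ i, ∃ r, algebraMap R B r = f.1.coeff i := by
      intro i
      apply Algebra.IsInvariant.isInvariant (G := G)
      intro g
      have h2 := congrArg (fun z : rees 𝓕 => z.1.coeff i) (hf g)
      have h3 : (g • f.1).coeff i = f.1.coeff i := h2
      rwa [coeff_smul] at h3
    obtain ⟨q, hq⟩ : ∃ q : R[X], q.map (algebraMap R B) = f.1 := by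
      have : f.1 ∈ Polynomial.lifts (algebraMap R B) := by
        rw [Polynomial.lifts_iff_coeff_lifts]
        exact h1
      exact this
    refine ⟨⟨q, fun i => ?_⟩, ?_⟩
    · rw [Filt.mem_comap, ← coeff_map, hq]
      exact f.2 i
    · apply Subtype.ext
      exact hq
  have h4 : Algebra.IsIntegral (rees (𝓕.comap (algebraMap R B))) (rees 𝓕) :=
    Algebra.IsInvariant.isIntegral _ _ G
  exact h4.isIntegral

/-- Finite generation of the Rees algebra of the contracted filtration. -/
theorem finiteType_rees_comap {k : Type*} [Field k] [Algebra k R] [Algebra k B]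
    [IsScalarTower k R B] [Finite G] (h : Stable G 𝓕)
    (hinj : Function.Injective (algebraMap R B))
    (hfin : ((algebraMap B (rees 𝓕)).comp (algebraMap k B)).FiniteType) :
    Algebra.FiniteType R (rees (𝓕.comap (algebraMap R B))) := by
  letI := (reesMap (algebraMap R B) 𝓕).toAlgebra
  letI : Algebra k (rees (𝓕.comap (algebraMap R B))) :=
    ((algebraMap R (rees (𝓕.comap (algebraMap R B)))).comp (algebraMap k R)).toAlgebra
  letI : Algebra k (rees 𝓕) := ((algebraMap B (rees 𝓕)).comp (algebraMap k B)).toAlgebra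
  have : IsScalarTower k (rees (𝓕.comap (algebraMap R B))) (rees 𝓕) := by
    apply IsScalarTower.of_algebraMap_eq
    intro c
    apply Subtype.ext
    change Polynomial.C (algebraMap k B c) = (Polynomial.C (algebraMap k R c)).map (algebraMap R B)
    rw [Polynomial.map_C, IsScalarTower.algebraMap_apply k R B]
  have h1 : Algebra.IsIntegral (rees (𝓕.comap (algebraMap R B))) (rees 𝓕) :=
    ⟨reesMap_isIntegral h⟩
  have h2 : Algebra.FiniteType k (rees 𝓕) := hfin
  have h3 : Algebra.FiniteType k (rees (𝓕.comap (algebraMap R B))) :=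
    finiteType_of_integral (Q := rees 𝓕) (reesMap_injective _ 𝓕 hinj)
  have : IsScalarTower k R (rees (𝓕.comap (algebraMap R B))) := .of_algebraMap_eq fun _ => rfl
  exact Algebra.FiniteType.of_restrictScalars_finiteType k R _

/-- Primes of the Rees algebra of the contracted filtration. -/
theorem cover_comap [IsDomain B] {ι : Type*} (g : ι → R)
    (hg : ∀ i, g i ∈ (𝓕.comap (algebraMap R B)).J 1) [Finite G] (h : Stable G 𝓕)
    (hinj : Function.Injective (algebraMap R B))
    (hcov : ∀ P : Ideal (rees 𝓕), P.IsPrime → (∀ i, gT 𝓕 (algebraMap R B (g i)) (hg i) ∈ P) →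
      ∀ n, ∀ r : 𝓕.J (n + 1), mon 𝓕 (n + 1) r ∈ P)
    (P : Ideal (rees (𝓕.comap (algebraMap R B)))) (hP : P.IsPrime)
    (hgP : ∀ i, gT _ (g i) (hg i) ∈ P) (n : ℕ) (r : (𝓕.comap (algebraMap R B)).J (n + 1)) :
    mon _ (n + 1) r ∈ P := by
  letI := (reesMap (algebraMap R B) 𝓕).toAlgebra
  have h1 : Algebra.IsIntegral (rees (𝓕.comap (algebraMap R B))) (rees 𝓕) :=
    ⟨reesMap_isIntegral h⟩
  have h2 : RingHom.ker (algebraMap (rees (𝓕.comap (algebraMap R B))) (rees 𝓕)) ≤ P := by
    have : RingHom.ker (algebraMap (rees (𝓕.comap (algebraMap R B))) (rees 𝓕)) = ⊥ :=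
      (RingHom.injective_iff_ker_eq_bot _).1 (reesMap_injective _ 𝓕 hinj)
    rw [this]
    exact bot_le
  obtain ⟨Q, hQ, hQP⟩ := Ideal.exists_ideal_over_prime_of_isIntegral_of_isDomain P h2
  have h3 : ∀ i, gT 𝓕 (algebraMap R B (g i)) (hg i) ∈ Q := by
    intro i
    have := hgP i
    rw [← hQP, Ideal.mem_comap] at this
    have e := reesMap_mon (algebraMap R B) 𝓕 1 ⟨g i, hg i⟩
    change reesMap (algebraMap R B) 𝓕 _ ∈ Q at this
    rw [e] at this
    exact this
  rw [← hQP, Ideal.mem_comap]
  change reesMap (algebraMap R B) 𝓕 _ ∈ Q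
  rw [reesMap_mon]
  exact hcov Q hQ h3 n ⟨_, r.2⟩

end Action

end Pool.Agent.MPb525bf
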