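import Pool.Agent.Lib.MP_b525bf_ag_h42.Descent

/-!
# Rings of invariants of translation groups
-/

set_option autoImplicit false
set_option linter.style.haveILetI false

open MvPolynomial

namespace Pool.Agent.MPb525bf

universe u

variable {k : Type u} [Field k] {C : Type u} [CommRing C] [Algebra k C] {ι : Type}

/-- The translation `x_j ↦ x_j + γ f_j` of the polynomial ring `C[x_j]`. -/
noncomputable def shift (f : ι → C) (γ : k) : MvPolynomial ι C →ₐ[C] MvPolynomial ι C :=
  aeval fun j => X j + MvPolynomial.C (algebraMap k C γ * f j)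

/-- The subalgebra of polynomials invariant under all translations `x_j ↦ x_j + γ f_j`, `γ ∈ Γ`. -/
def inv (f : ι → C) (Γ : AddSubgroup k) : Subalgebra C (MvPolynomial ι C) where
  carrier := { P | ∀ γ ∈ Γ, shift f γ P = P }
  mul_mem' ha hb γ hγ := by rw [map_mul, ha γ hγ, hb γ hγ]
  add_mem' ha hb γ hγ := by rw [map_add, ha γ hγ, hb γ hγ]
  algebraMap_mem' r γ _ := AlgHom.commutes _ r

theorem mem_inv {f : ι → C} {Γ : AddSubgroup k} {P : MvPolynomial ι C} :
    P ∈ inv f Γ ↔ ∀ γ ∈ Γ, shift f γ P = P := Iff.rfl

@[simp]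
theorem shift_X (f : ι → C) (γ : k) (j : ι) :
    shift f γ (X j) = X j + MvPolynomial.C (algebraMap k C γ * f j) := by
  simp [shift]

/-- General criterion for `A' ⊆ B'` to be given by one monic equation. -/
theorem exists_equiv_of_nodes {A B : Type u} [CommRing A] [CommRing B] [IsDomain B] [Algebra A B]
    (hinj : Function.Injective (algebraMap A B)) {τ : Type*} [Fintype τ] [Nonempty τ]
    (g : τ → B →ₐ[A] B) (x : B) (hx : Function.Injective fun t => g t x)
    (F : Polynomial A) (hF : F.Monic) (hFd : F.natDegree = Fintype.card τ)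
    (hF0 : Polynomial.aeval x F = 0) (htop : Algebra.adjoin A {x} = ⊤) :
    Nonempty (AdjoinRoot F ≃ₐ[A] B) := by
  classical
  refine ⟨AlgEquiv.ofBijective (AdjoinRoot.liftAlgHom F (Algebra.ofId A B) x hF0) ⟨?_, ?_⟩⟩
  · rw [injective_iff_map_eq_zero]
    intro z hz
    obtain ⟨G, rfl⟩ := AdjoinRoot.mk_surjective z
    rw [AdjoinRoot.liftAlgHom_mk] at hz
    have hz' : Polynomial.aeval x G = 0 := hz
    have e1 : G = G %ₘ F + F * (G /ₘ F) := (Polynomial.modByMonic_add_div G F).symm
    have e2 : Polynomial.aeval x (G %ₘ F) = 0 := by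
      rw [e1, map_add, map_mul, hF0, zero_mul, add_zero] at hz'
      exact hz'
    have hA : Nontrivial A := by
      by_contra hn
      rw [not_nontrivial_iff_subsingleton] at hn
      have h1 : algebraMap A B 1 = algebraMap A B 0 := by rw [Subsingleton.elim (1 : A) 0]
      simp at h1
    have hdeg : (G %ₘ F).degree < Fintype.card τ := by
      have := Polynomial.degree_modByMonic_lt G hF
      rwa [Polynomial.degree_eq_natDegree hF.ne_zero, hFd] at this
    have e3 : (G %ₘ F).map (algebraMap A B) = 0 := by
      apply Polynomial.eq_zero_of_degree_lt_of_eval_index_eq_zero (s := (Finset.univ : Finset τ))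
        (v := fun t => g t x)
      · intro a _ b _ hab; exact hx hab
      · rw [Finset.card_univ]
        exact lt_of_le_of_lt Polynomial.degree_map_le hdeg
      · intro t _
        have := Polynomial.aeval_algHom_apply (g t) x (G %ₘ F)
        rw [e2, map_zero] at this
        rwa [Polynomial.aeval_def, ← Polynomial.eval_map] at this
    rw [AdjoinRoot.mk_eq_zero, ← Polynomial.modByMonic_eq_zero_iff_dvd hF]
    rwa [Polynomial.map_eq_zero_iff hinj] at e3
  · have : (AdjoinRoot.liftAlgHom F (Algebra.ofId A B) x hF0).range = ⊤ := by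
      rw [eq_top_iff, ← htop, Algebra.adjoin_le_iff, Set.singleton_subset_iff]
      exact ⟨AdjoinRoot.root F, by simp⟩
    intro b
    have hb : b ∈ (AdjoinRoot.liftAlgHom F (Algebra.ofId A B) x hF0).range := by
      rw [this]; trivial
    exact hb

end Pool.Agent.MPb525bf
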