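import Pool.Agent.Lib.MP_b525bf_ag_h42.Descent

/-!
# Quotients by automorphisms of prime order with principal augmentation ideal
-/

set_option autoImplicit false
set_option linter.style.haveILetI false

open Polynomial

namespace Pool.Agent.MPb525bf

universe u

section Monogenic

variable {A B : Type u} [CommRing A] [CommRing B] [IsDomain B] [Algebra A B]
variable (σ : B →ₐ[A] B) (p : ℕ)

/-- Hypotheses: `σ` has order dividing `p`, its fixed ring is `A`, it is trivial modulo `s`, and
`x` is an element with `σⁱ x - x ∈ s · Bˣ` for `0 < i < p`. -/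
structure Mono (s x : B) : Prop where
  inj : Function.Injective (algebraMap A B)
  pos : 0 < p
  order : ∀ b, σ^[p] b = b
  fix : ∀ b, σ b = b → ∃ a, algebraMap A B a = b
  s0 : s ≠ 0
  div : ∀ b, s ∣ σ b - b
  unit : ∀ i, 0 < i → i < p → ∃ v w : B, v * w = 1 ∧ σ^[i] x - x = s * v

variable {σ p} {s x : B} (h : Mono σ p s x)

include h

theorem Mono.node_ne {i j : ℕ} (hij : i < j) (hj : j < p) : σ^[i] x ≠ σ^[j] x := by
  intro he
  have hinj : Function.Injective (σ : B → B) := by
    intro a b hab
    have h1 : σ^[p - 1] (σ a) = σ^[p - 1] (σ b) := by rw [hab]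
    rw [← Function.iterate_succ_apply, ← Function.iterate_succ_apply] at h1
    have hp : (p - 1).succ = p := by have := h.pos; omega
    rw [hp, h.order, h.order] at h1
    exact h1
  have h2 : σ^[i] x = σ^[i] (σ^[j - i] x) := by
    rw [← Function.iterate_add_apply]
    have : i + (j - i) = j := by omega
    rw [this]; exact he
  have h3 := (hinj.iterate i) h2
  obtain ⟨v, w, hvw, h4⟩ := h.unit (j - i) (by omega) (by omega)
  rw [← h3, sub_self] at h4
  have hv : v ≠ 0 := by rintro rfl; simp at hvw
  exact (mul_ne_zero h.s0 hv) h4.symm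

theorem Mono.root_inj {i j : ℕ} (hi : i < p) (hj : j < p) (he : σ^[i] x = σ^[j] x) : i = j := by
  rcases lt_trichotomy i j with h1 | h1 | h1
  · exact absurd he (h.node_ne h1 hj)
  · exact h1
  · exact absurd he.symm (h.node_ne h1 hi)

/-- A polynomial of degree `< p` vanishing at all nodes is zero. -/
theorem Mono.eq_zero {G : B[X]} (hG : G.degree < p) (h0 : ∀ j < p, G.eval (σ^[j] x) = 0) :
    G = 0 := by
  classical
  apply Polynomial.eq_zero_of_degree_lt_of_eval_index_eq_zero (s := Finset.range p)
    (v := fun j => σ^[j] x)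
  · intro i hi j hj hij
    exact h.root_inj (by simpa using hi) (by simpa using hj) hij
  · simpa using hG
  · intro i hi
    exact h0 i (by simpa using hi)

theorem Mono.interp (b : B) : ∀ n, n < p → ∃ G : B[X], G.degree < (n + 1 : ℕ) ∧
    ∀ j ≤ n, G.eval (σ^[j] x) = σ^[j] b := by
  intro n
  induction n with
  | zero =>
    intro _
    refine ⟨C b, ?_, ?_⟩
    · exact lt_of_le_of_lt degree_C_le (by norm_num)
    · intro j hj
      obtain rfl : j = 0 := by omega
      simp
  | succ n ih =>
    intro hn
    obtain ⟨G, hGd, hG⟩ := ih (by omega)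
    obtain ⟨v, w, hvw, hu⟩ := h.unit (n + 1) (by omega) hn
    -- `σ G - G = s H`
    have hdiv : ∀ i, ∃ c, σ (G.coeff i) - G.coeff i = s * c := fun i => h.div _
    choose c hc using hdiv
    let H : B[X] := ∑ i ∈ Finset.range (n + 1), C (c i) * X ^ i
    have hGsum : G = ∑ i ∈ Finset.range (n + 1), C (G.coeff i) * X ^ i := by
      have := G.as_sum_range' (n + 1) (by
        by_cases hG0 : G = 0
        · rw [hG0]; simp
        · exact (natDegree_lt_iff_degree_lt hG0).2 hGd)
      conv_lhs => rw [this]
      simp only [← C_mul_X_pow_eq_monomial]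
    have hH : C s * H = G.map (σ : B →+* B) - G := by
      have e1 : G.map (σ : B →+* B) = ∑ i ∈ Finset.range (n + 1), C (σ (G.coeff i)) * X ^ i := by
        conv_lhs => rw [hGsum]
        simp [Polynomial.map_sum]
      rw [e1]
      conv_rhs => rw [hGsum]
      rw [← Finset.sum_sub_distrib, Finset.mul_sum]
      apply Finset.sum_congr rfl
      intro i _
      have hcoef : (∑ i ∈ Finset.range (n + 1), C (G.coeff i) * X ^ i : B[X]) = G := hGsum.symm
      rw [hcoef, ← sub_mul, ← C_sub, hc i, C_mul]
      ring
    have hHd : H.degree < (n + 1 : ℕ) := by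
      apply lt_of_le_of_lt (degree_sum_le _ _)
      rw [Finset.sup_lt_iff (by exact WithBot.bot_lt_coe _)]
      intro i hi
      exact lt_of_le_of_lt (degree_C_mul_X_pow_le _ _) (by
        exact_mod_cast Finset.mem_range.1 hi)
    refine ⟨G + C w * (X - C x) * H, ?_, ?_⟩
    · apply lt_of_le_of_lt (degree_add_le _ _)
      apply max_lt
      · exact hGd.trans (by exact_mod_cast Nat.lt_succ_self _)
      · have h1 : H.natDegree ≤ n := by
          by_cases hH0 : H = 0
          · rw [hH0]; simp
          · exact Nat.lt_succ_iff.1 ((natDegree_lt_iff_degree_lt hH0).2 hHd)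
        have h2 : (C w * (X - C x)).natDegree ≤ 1 := by
          apply (natDegree_C_mul_le _ _).trans
          exact natDegree_X_sub_C_le x
        have h3 : (C w * (X - C x) * H).natDegree ≤ 1 + n :=
          natDegree_mul_le.trans (add_le_add h2 h1)
        refine lt_of_le_of_lt degree_le_natDegree ?_
        exact_mod_cast (by omega : (C w * (X - C x) * H).natDegree < n + 1 + 1)
    · intro j hj
      have hev : ∀ y, s * H.eval y = (G.map (σ : B →+* B)).eval y - G.eval y := by
        intro y
        rw [← eval_sub, ← hH, eval_mul, eval_C]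
      have hσ : ∀ i ≤ n, (G.map (σ : B →+* B)).eval (σ^[i + 1] x) = σ^[i + 1] b := by
        intro i hi
        rw [Function.iterate_succ_apply', Function.iterate_succ_apply', ← hG i hi]
        exact (Polynomial.eval_map_apply (σ : B →+* B) _)
      rcases Nat.eq_zero_or_pos j with rfl | hj0
      · have := hG 0 (Nat.zero_le _)
        simp only [Function.iterate_zero, id] at this ⊢
        simp [this]
      · obtain ⟨i, rfl⟩ : ∃ i, j = i + 1 := ⟨j - 1, by omega⟩
        have e2 := hev (σ^[i + 1] x)
        rw [hσ i (by omega)] at e2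
        rcases Nat.lt_or_ge (i + 1) (n + 1) with h1 | h1
        · rw [hG (i + 1) (by omega), sub_self] at e2
          have e3 : H.eval (σ^[i + 1] x) = 0 := (mul_eq_zero.1 e2).resolve_left h.s0
          rw [eval_add, eval_mul, e3, hG (i + 1) (by omega)]; ring
        · obtain rfl : i = n := by omega
          rw [eval_add, eval_mul, eval_mul, eval_C, eval_sub, eval_X, eval_C, hu]
          linear_combination (w * v) * e2 + (σ^[i + 1] b - G.eval (σ^[i + 1] x)) * hvw

/-- The ring `B` is generated by `x` over `A`, with polynomials of degree `< p`. -/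
theorem Mono.exists_poly (b : B) : ∃ G : A[X], G.degree < p ∧ aeval x G = b := by
  obtain ⟨G, hGd, hG⟩ := h.interp b (p - 1) (by have := h.pos; omega)
  have hp : p - 1 + 1 = p := by have := h.pos; omega
  rw [hp] at hGd
  have hfix : G.map (σ : B →+* B) = G := by
    rw [← sub_eq_zero]
    apply h.eq_zero
    · exact lt_of_le_of_lt (degree_sub_le _ _) (max_lt (lt_of_le_of_lt degree_map_le hGd) hGd)
    · intro j hj
      rw [eval_sub, hG j (by omega), sub_eq_zero]
      rcases Nat.eq_zero_or_pos j with rfl | hj0
      · have e1 : σ^[p - 1 + 1] x = x := by rw [hp]; exact h.order x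
        have e2 : σ^[p - 1 + 1] b = b := by rw [hp]; exact h.order b
        rw [Function.iterate_zero, id, id]
        conv_lhs => rw [← e1]
        conv_rhs => rw [← e2]
        rw [Function.iterate_succ_apply', Function.iterate_succ_apply', ← hG (p - 1) le_rfl]
        exact Polynomial.eval_map_apply (σ : B →+* B) _
      · obtain ⟨i, rfl⟩ : ∃ i, j = i + 1 := ⟨j - 1, by omega⟩
        rw [Function.iterate_succ_apply', Function.iterate_succ_apply', ← hG i (by omega)]
        exact Polynomial.eval_map_apply (σ : B →+* B) _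
  have hcoef : ∀ i, ∃ a, algebraMap A B a = G.coeff i := by
    intro i
    apply h.fix
    have := congrArg (fun P : B[X] => P.coeff i) hfix
    simpa using this
  choose a ha using hcoef
  obtain ⟨G', hG', hGd'⟩ : ∃ G' : A[X], G'.map (algebraMap A B) = G ∧ G'.degree = G.degree := by
    have : G ∈ Polynomial.lifts (algebraMap A B) := by
      rw [Polynomial.lifts_iff_coeff_lifts]
      intro n
      exact ⟨a n, ha n⟩
    exact Polynomial.exists_degree_eq_of_mem_lifts this
  refine ⟨G', by rw [hGd']; exact hGd, ?_⟩
  rw [aeval_def, ← eval_map, hG']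
  exact hG 0 (Nat.zero_le _)

/-- The monic polynomial of degree `p` with roots the nodes. -/
theorem Mono.exists_monic : ∃ F : A[X], F.Monic ∧ F.natDegree = p ∧ aeval x F = 0 := by
  obtain ⟨G, hGd, hG⟩ := h.exists_poly (x ^ p)
  refine ⟨X ^ p - G, ?_, ?_, ?_⟩
  · exact monic_X_pow_sub hGd
  · have : Nontrivial A := by
      by_contra hn
      rw [not_nontrivial_iff_subsingleton] at hn
      have h1 : algebraMap A B 1 = algebraMap A B 0 := by rw [Subsingleton.elim (1 : A) 0]
      simp at h1
    apply natDegree_eq_of_degree_eq_some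
    rw [degree_sub_eq_left_of_degree_lt (by rw [degree_X_pow]; exact hGd), degree_X_pow]
  · simp [hG]

/-- A polynomial over `A` of degree `< p` vanishing at `x` is zero. -/
theorem Mono.eq_zero_of_aeval {G : A[X]} (hG : G.degree < p) (h0 : aeval x G = 0) : G = 0 := by
  have h1 : G.map (algebraMap A B) = 0 := by
    apply h.eq_zero (lt_of_le_of_lt degree_map_le hG)
    intro j _
    have h2 : ∀ j, aeval (σ^[j] x) G = 0 := by
      intro j
      induction j with
      | zero => exact h0
      | succ j ih => rw [Function.iterate_succ_apply', Polynomial.aeval_algHom_apply, ih, map_zero]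
    have := h2 j
    rwa [aeval_def, ← eval_map] at this
  rwa [Polynomial.map_eq_zero_iff h.inj] at h1

theorem Mono.exists_equiv : ∃ F : A[X], F.Monic ∧ 0 < F.natDegree ∧
    Nonempty (AdjoinRoot F ≃ₐ[A] B) := by
  obtain ⟨F, hF, hFd, hF0⟩ := h.exists_monic
  refine ⟨F, hF, by rw [hFd]; exact h.pos, ⟨AlgEquiv.ofBijective
    (AdjoinRoot.liftAlgHom F (Algebra.ofId A B) x hF0) ⟨?_, ?_⟩⟩⟩
  · rw [injective_iff_map_eq_zero]
    intro z hz
    obtain ⟨G, rfl⟩ := AdjoinRoot.mk_surjective z
    have hA : Nontrivial A := by
      by_contra hn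
      rw [not_nontrivial_iff_subsingleton] at hn
      have h1 : algebraMap A B 1 = algebraMap A B 0 := by rw [Subsingleton.elim (1 : A) 0]
      simp at h1
    rw [AdjoinRoot.liftAlgHom_mk] at hz
    have e1 : G = G %ₘ F + F * (G /ₘ F) := (modByMonic_add_div G F).symm
    have e2 : aeval x (G %ₘ F) = 0 := by
      have : aeval x G = 0 := hz
      rw [e1, map_add, map_mul, hF0, zero_mul, add_zero] at this
      exact this
    have e3 : G %ₘ F = 0 := by
      apply h.eq_zero_of_aeval _ e2
      have := degree_modByMonic_lt G hF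
      rw [degree_eq_natDegree hF.ne_zero, hFd] at this
      exact this
    rw [AdjoinRoot.mk_eq_zero, ← Polynomial.modByMonic_eq_zero_iff_dvd hF]
    exact e3
  · intro b
    obtain ⟨G, _, hG⟩ := h.exists_poly b
    refine ⟨AdjoinRoot.mk F G, ?_⟩
    rw [AdjoinRoot.liftAlgHom_mk]
    exact hG

theorem Mono.formallySmooth {k : Type u} [CommRing k] [Algebra k A] [Algebra k B]
    [IsScalarTower k A B] [Algebra.FormallySmooth k B] : Algebra.FormallySmooth k A := by
  obtain ⟨F, hF, hF0, ⟨e⟩⟩ := h.exists_equiv
  have : Algebra.FormallySmooth k (AdjoinRoot F) :=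
    Algebra.FormallySmooth.of_equiv (e.symm.restrictScalars k)
  exact formallySmooth_of_adjoinRoot F hF hF0

end Monogenic

end Pool.Agent.MPb525bf
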