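import Pool.Agent.Lib.MP_b525bf_ag_h42.Main1

/-!
# Charts of blow-ups as generated algebras, and blow-ups of coordinate subspaces
-/

set_option autoImplicit false
set_option linter.style.haveILetI false
set_option linter.unusedSectionVars false

open MvPolynomial AlgebraicGeometry CategoryTheory

namespace Pool.Agent.MPb525bf

universe u

theorem blowupChart_eq {A : Type u} [CommRing A] {κ : Type}
    (c : κ → A) (KA : Type u) [Field KA] [Algebra A KA] (i : κ) (hi : algebraMap A KA (c i) ≠ 0) :
    blowupChart c KA i =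
      Algebra.adjoin A (Set.range fun j => algebraMap A KA (c j) / algebraMap A KA (c i)) := by
  apply le_antisymm
  · rintro x ⟨m, a, ha, hx⟩
    have key : ∀ m, ∀ a ∈ (Ideal.span (Set.range c)) ^ m,
        algebraMap A KA a / algebraMap A KA (c i) ^ m ∈
        Algebra.adjoin A (Set.range fun j => algebraMap A KA (c j) / algebraMap A KA (c i)) := by
      intro m
      induction m with
      | zero =>
        intro a _
        rw [pow_zero, div_one]
        exact Subalgebra.algebraMap_mem _ a
      | succ m ih =>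
        intro a ha
        rw [pow_succ'] at ha
        refine Submodule.mul_induction_on ha ?_ ?_
        · intro a ha b hb
          have h1 : algebraMap A KA a / algebraMap A KA (c i) ∈
              Algebra.adjoin A (Set.range fun j => algebraMap A KA (c j) / algebraMap A KA (c i)) := by
            refine Submodule.span_induction ?_ ?_ ?_ ?_
              (show a ∈ Submodule.span A (Set.range c) from ha)
            · rintro _ ⟨j, rfl⟩
              exact Algebra.subset_adjoin ⟨j, rfl⟩
            · rw [map_zero, zero_div]; exact zero_mem _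
            · intro x y _ _ hx hy
              rw [map_add, add_div]; exact add_mem hx hy
            · intro r x _ hx
              rw [smul_eq_mul, map_mul, mul_div_assoc]
              exact mul_mem (Subalgebra.algebraMap_mem _ r) hx
          have h2 := mul_mem h1 (ih b hb)
          have h3 : algebraMap A KA a / algebraMap A KA (c i) *
              (algebraMap A KA b / algebraMap A KA (c i) ^ m) =
              algebraMap A KA (a * b) / algebraMap A KA (c i) ^ (m + 1) := by
            rw [map_mul, pow_succ', div_mul_div_comm]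
          rwa [h3] at h2
        · intro x y hx hy
          rw [map_add, add_div]; exact add_mem hx hy
    have h1 := key m a ha
    rw [← hx, mul_div_cancel_right₀ _ (pow_ne_zero _ hi)] at h1
    exact h1
  · rw [Algebra.adjoin_le_iff]
    rintro _ ⟨j, rfl⟩
    refine ⟨1, c j, mem_span_pow_one c j, ?_⟩
    rw [pow_one]
    exact div_mul_cancel₀ _ hi

section Coord

variable (k : Type u) [Field k] (ι ρ : Type) (i : ι) [DecidableEq ι]
  (KA : Type u) [Field KA] [Algebra (MvPolynomial (ι ⊕ ρ) k) KA]
  [FaithfulSMul (MvPolynomial (ι ⊕ ρ) k) KA]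

/-- the coordinates -/
noncomputable abbrev coordIdeal : ι → MvPolynomial (ι ⊕ ρ) k := fun j => X (Sum.inl j)

/-- the substitution `X_j ↦ X_j X_i` -/
noncomputable def betaMap : MvPolynomial (ι ⊕ ρ) k →ₐ[k] MvPolynomial (ι ⊕ ρ) k :=
  aeval (Sum.elim (fun j => if j = i then X (Sum.inl i) else X (Sum.inl j) * X (Sum.inl i))
    (fun l => X (Sum.inr l)))

/-- the `k`-algebra structure on `KA` -/
noncomputable abbrev kAlg : Algebra k KA :=
  ((algebraMap (MvPolynomial (ι ⊕ ρ) k) KA).comp (algebraMap k _)).toAlgebra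

/-- the map `X_j ↦ X_j / X_i` -/
noncomputable def thetaMap : MvPolynomial (ι ⊕ ρ) k →+* KA :=
  eval₂Hom ((algebraMap (MvPolynomial (ι ⊕ ρ) k) KA).comp (algebraMap k (MvPolynomial (ι ⊕ ρ) k)))
  (Sum.elim (fun j => if j = i then algebraMap (MvPolynomial (ι ⊕ ρ) k) KA (X (Sum.inl i)) else
      algebraMap (MvPolynomial (ι ⊕ ρ) k) KA (X (Sum.inl j)) /
        algebraMap (MvPolynomial (ι ⊕ ρ) k) KA (X (Sum.inl i)))
    (fun l => algebraMap (MvPolynomial (ι ⊕ ρ) k) KA (X (Sum.inr l))))

theorem X_ne : algebraMap (MvPolynomial (ι ⊕ ρ) k) KA (X (Sum.inl i)) ≠ 0 := by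
  rw [Ne, FaithfulSMul.algebraMap_eq_zero_iff]
  exact MvPolynomial.X_ne_zero _

theorem theta_beta (P : MvPolynomial (ι ⊕ ρ) k) :
    thetaMap k ι ρ i KA (betaMap k ι ρ i P) = algebraMap _ KA P := by
  induction P using MvPolynomial.induction_on with
  | C c =>
    rw [← MvPolynomial.algebraMap_eq, AlgHom.commutes, MvPolynomial.algebraMap_eq, thetaMap,
      MvPolynomial.coe_eval₂Hom, MvPolynomial.eval₂_C]
    rfl
  | add p q hp hq => rw [map_add, map_add, hp, hq, map_add]
  | mul_X p j hp =>
    rw [map_mul, map_mul, hp, map_mul]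
    congr 1
    rcases j with j | l
    · simp only [betaMap, aeval_X, Sum.elim_inl]
      split_ifs with h
      · subst h
        simp [thetaMap]
      · have := X_ne k ι ρ i KA
        rw [map_mul]
        simp only [thetaMap, coe_eval₂Hom, eval₂_X, Sum.elim_inl, if_neg h, if_true]
        rw [div_mul_cancel₀ _ this]
    · simp [betaMap, thetaMap]

theorem exists_beta (P : MvPolynomial (ι ⊕ ρ) k) :
    ∃ N Q, betaMap k ι ρ i Q = X (Sum.inl i) ^ N * P := by
  induction P using MvPolynomial.induction_on with
  | C c => exact ⟨0, C c, by rw [← MvPolynomial.algebraMap_eq, AlgHom.commutes]; simp⟩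
  | add p q hp hq =>
    obtain ⟨N, Q, h1⟩ := hp
    obtain ⟨M, Q', h2⟩ := hq
    refine ⟨N + M, X (Sum.inl i) ^ M * Q + X (Sum.inl i) ^ N * Q', ?_⟩
    have hX : betaMap k ι ρ i (X (Sum.inl i)) = X (Sum.inl i) := by simp [betaMap]
    rw [map_add, map_mul, map_mul, h1, h2, map_pow, map_pow, hX]
    ring
  | mul_X p j hp =>
    obtain ⟨N, Q, h1⟩ := hp
    refine ⟨N + 1, Q * (Sum.elim (fun j => if j = i then X (Sum.inl i) * X (Sum.inl i) else
      X (Sum.inl j)) (fun l => X (Sum.inr l) * X (Sum.inl i)) j), ?_⟩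
    rw [map_mul, h1]
    rcases j with j | l
    · by_cases h : j = i
      · subst h
        simp [betaMap]
        ring
      · simp [betaMap, h]
        ring
    · simp [betaMap]
      ring

theorem theta_injective : Function.Injective (thetaMap k ι ρ i KA) := by
  rw [injective_iff_map_eq_zero]
  intro P hP
  obtain ⟨N, Q, hQ⟩ := exists_beta k ι ρ i P
  have h1 := theta_beta k ι ρ i KA Q
  rw [hQ, map_mul, hP, mul_zero] at h1
  have h2 : Q = 0 := by
    rw [← FaithfulSMul.algebraMap_eq_zero_iff (MvPolynomial (ι ⊕ ρ) k) KA]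
    exact h1.symm
  rw [h2, map_zero] at hQ
  have h3 : (X (Sum.inl i) : MvPolynomial (ι ⊕ ρ) k) ^ N ≠ 0 :=
    pow_ne_zero _ (MvPolynomial.X_ne_zero _)
  exact (mul_eq_zero.1 hQ.symm).resolve_left h3

theorem theta_range (x : KA) : (∃ P, thetaMap k ι ρ i KA P = x) ↔
    x ∈ blowupChart (coordIdeal k ι ρ) KA i := by
  rw [blowupChart_eq (coordIdeal k ι ρ) KA i (X_ne k ι ρ i KA)]
  constructor
  · rintro ⟨P, rfl⟩
    induction P using MvPolynomial.induction_on with
    | C c =>
      rw [thetaMap, MvPolynomial.coe_eval₂Hom, MvPolynomial.eval₂_C]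
      exact Subalgebra.algebraMap_mem _ _
    | add p q hp hq => rw [map_add]; exact add_mem hp hq
    | mul_X p j hp =>
      rw [map_mul]
      refine mul_mem hp ?_
      rcases j with j | l
      · rw [thetaMap, MvPolynomial.coe_eval₂Hom, MvPolynomial.eval₂_X, Sum.elim_inl]
        split_ifs with h
        · exact Subalgebra.algebraMap_mem _ _
        · exact Algebra.subset_adjoin ⟨j, rfl⟩
      · rw [thetaMap, MvPolynomial.coe_eval₂Hom, MvPolynomial.eval₂_X, Sum.elim_inr]
        exact Subalgebra.algebraMap_mem _ _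
  · intro hx
    have : x ∈ (thetaMap k ι ρ i KA).range := by
      induction hx using Algebra.adjoin_induction with
      | mem x hx =>
        obtain ⟨j, rfl⟩ := hx
        by_cases h : j = i
        · subst h
          change _ / _ ∈ _
          rw [div_self (X_ne k ι ρ j KA)]
          exact one_mem _
        · refine ⟨X (Sum.inl j), ?_⟩
          rw [thetaMap, MvPolynomial.coe_eval₂Hom, MvPolynomial.eval₂_X, Sum.elim_inl, if_neg h]
      | algebraMap r => exact ⟨betaMap k ι ρ i r, theta_beta k ι ρ i KA r⟩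
      | add x y _ _ hx hy => exact add_mem hx hy
      | mul x y _ _ hx hy => exact mul_mem hx hy
    exact this

theorem smooth_coord [Finite ι] [Finite ρ] :
    ((algebraMap (MvPolynomial (ι ⊕ ρ) k) (blowupChart (coordIdeal k ι ρ) KA i)).comp
      (algebraMap k (MvPolynomial (ι ⊕ ρ) k))).Smooth := by
  let e : MvPolynomial (ι ⊕ ρ) k ≃+* blowupChart (coordIdeal k ι ρ) KA i :=
    RingEquiv.ofBijective ((thetaMap k ι ρ i KA).codRestrict
      (blowupChart (coordIdeal k ι ρ) KA i) (fun x => (theta_range k ι ρ i KA _).1 ⟨x, rfl⟩))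
      ⟨fun x y h => theta_injective k ι ρ i KA (congrArg Subtype.val h), fun y => by
        obtain ⟨x, hx⟩ := (theta_range k ι ρ i KA y.1).2 y.2
        exact ⟨x, Subtype.ext hx⟩⟩
  have h1 : ((algebraMap (MvPolynomial (ι ⊕ ρ) k) (blowupChart (coordIdeal k ι ρ) KA i)).comp
      (algebraMap k (MvPolynomial (ι ⊕ ρ) k))) =
      (e : MvPolynomial (ι ⊕ ρ) k →+* blowupChart (coordIdeal k ι ρ) KA i).comp
        (algebraMap k (MvPolynomial (ι ⊕ ρ) k)) := by
    ext r
    change algebraMap _ KA (MvPolynomial.C r) = thetaMap k ι ρ i KA (MvPolynomial.C r)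
    rw [thetaMap, MvPolynomial.coe_eval₂Hom, MvPolynomial.eval₂_C]
    rfl
  rw [h1]
  have h2 : Algebra.Smooth k (MvPolynomial (ι ⊕ ρ) k) := { }
  exact RingHom.Smooth.comp (RingHom.smooth_algebraMap.2 h2) (RingHom.Smooth.of_bijective e.bijective)

end Coord

end Pool.Agent.MPb525bf
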