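import Pool.Agent.Lib.MP_b525bf_ag_h42.LinAct
import Pool.Agent.Lib.MP_b525bf_ag_h42.LinChart

/-!
# Linear quotients by groups `{1 + γN}` with `N² = 0`
-/

set_option autoImplicit false
set_option linter.style.haveILetI false
set_option linter.unusedSectionVars false

open MvPolynomial AlgebraicGeometry CategoryTheory

namespace Pool.Agent.MPb525bf

universe u

theorem exists_adapted_basis {k V : Type u} [Field k] [AddCommGroup V] [Module k V]
    [FiniteDimensional k V] (N : V →ₗ[k] V) (hN : ∀ v, N (N v) = 0) :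
    ∃ (m l : ℕ) (b : Module.Basis (Fin m ⊕ (Fin m ⊕ Fin l)) k V),
      (∀ j, N (b (Sum.inl j)) = b (Sum.inr (Sum.inl j))) ∧ ∀ j, N (b (Sum.inr j)) = 0 := by
  obtain ⟨U, hU⟩ := (LinearMap.ker N).exists_isCompl
  let φ : U →ₗ[k] LinearMap.ker N := (N.comp U.subtype).codRestrict (LinearMap.ker N)
    (fun u => hN _)
  have hφ : Function.Injective φ := by
    rw [injective_iff_map_eq_zero]
    intro u hu
    have h1 : N u.1 = 0 := congrArg Subtype.val hu
    have h2 : u.1 ∈ LinearMap.ker N ⊓ U := ⟨h1, u.2⟩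
    rw [hU.inf_eq_bot] at h2
    exact Subtype.ext h2
  obtain ⟨Z, hZ⟩ := (LinearMap.range φ).exists_isCompl
  let bU := Module.finBasis k U
  let bZ := Module.finBasis k Z
  let e1 : (U × LinearMap.ker N) ≃ₗ[k] V := Submodule.prodEquivOfIsCompl U _ hU.symm
  let e2 : (LinearMap.range φ × Z) ≃ₗ[k] LinearMap.ker N := Submodule.prodEquivOfIsCompl _ _ hZ
  let e3 : U ≃ₗ[k] LinearMap.range φ := LinearEquiv.ofInjective φ hφ
  refine ⟨_, _, (bU.prod (((bU.map e3).prod bZ).map e2)).map e1, ?_, ?_⟩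
  · intro j
    simp [e1, e2, e3, φ]
  · intro j
    have : ((bU.prod (((bU.map e3).prod bZ).map e2)).map e1) (Sum.inr j) ∈ LinearMap.ker N := by
      simp [e1]
    exact this

section

variable {k : Type u} [Field k] (m l : ℕ) (Γ : AddSubgroup k)

/-- The standard matrix with `e_{x_j} ↦ e_{y_j}`. -/
def stdN : Matrix (Fin m ⊕ (Fin m ⊕ Fin l)) (Fin m ⊕ (Fin m ⊕ Fin l)) k :=
  Matrix.of fun i j => Sum.elim (fun j => if i = Sum.inr (Sum.inl j) then 1 else 0)
    (fun _ => 0) j

theorem sub_std_inl (γ : k) (j : Fin m) :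
    sub (1 + γ • stdN m l) (X (Sum.inl j) : MvPolynomial (Fin m ⊕ (Fin m ⊕ Fin l)) k) =
    X (Sum.inl j) + C γ * X (Sum.inr (Sum.inl j)) := by
  rw [sub_X]
  simp only [Matrix.add_apply, Matrix.smul_apply, stdN, Matrix.of_apply, Sum.elim_inl, smul_eq_mul,
    mul_ite, mul_one, mul_zero, map_add, add_mul, Finset.sum_add_distrib, Matrix.one_apply]
  simp only [Fintype.sum_sum_type, Sum.inl.injEq, Sum.inr.injEq, reduceCtorEq, if_false, map_zero,
    zero_mul, Finset.sum_const_zero, add_zero, zero_add, apply_ite MvPolynomial.C, map_one,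
    ite_mul, one_mul, Finset.sum_ite_eq', Finset.mem_univ, if_true]

theorem sub_std_inr (γ : k) (j : Fin m ⊕ Fin l) :
    sub (1 + γ • stdN m l) (X (Sum.inr j) : MvPolynomial (Fin m ⊕ (Fin m ⊕ Fin l)) k) =
    X (Sum.inr j) := by
  rw [sub_X]
  simp only [Matrix.add_apply, Matrix.smul_apply, stdN, Matrix.of_apply, Sum.elim_inr, smul_eq_mul,
    mul_zero, add_zero, Matrix.one_apply]
  simp

/-- The set of matrices `1 + γ N`. -/
def matGroup {n : Type} [DecidableEq n] (N : Matrix n n k) (Γ : AddSubgroup k) :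
    Set (Matrix n n k) := { M | ∃ γ ∈ Γ, M = 1 + γ • N }

theorem sum_shift (γ : k) (P : MvPolynomial (Fin m ⊕ (Fin m ⊕ Fin l)) k) :
    sumAlgEquiv k (Fin m) (Fin m ⊕ Fin l) (sub (1 + γ • stdN m l) P) =
      shift (coordIdeal k (Fin m) (Fin l)) γ (sumAlgEquiv k (Fin m) (Fin m ⊕ Fin l) P) := by
  have : ((sumAlgEquiv k (Fin m) (Fin m ⊕ Fin l)).toAlgHom.comp (sub (1 + γ • stdN m l))) =
      (((shift (coordIdeal k (Fin m) (Fin l)) γ).restrictScalars k).comp
        (sumAlgEquiv k (Fin m) (Fin m ⊕ Fin l)).toAlgHom) := by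
    ext j : 1
    rcases j with j | j
    · simp only [AlgHom.comp_apply, sub_std_inl]
      change sumAlgEquiv k (Fin m) (Fin m ⊕ Fin l) _ = shift (coordIdeal k (Fin m) (Fin l)) γ
        (sumAlgEquiv k (Fin m) (Fin m ⊕ Fin l) _)
      rw [sumAlgEquiv_X_inl, shift_X, map_add, map_mul, sumAlgEquiv_X_inl, sumAlgEquiv_C_inl,
        sumAlgEquiv_X_inr, map_mul]
      rfl
    · simp only [AlgHom.comp_apply, sub_std_inr]
      change sumAlgEquiv k (Fin m) (Fin m ⊕ Fin l) _ = shift (coordIdeal k (Fin m) (Fin l)) γ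
        (sumAlgEquiv k (Fin m) (Fin m ⊕ Fin l) _)
      rw [sumAlgEquiv_X_inr, ← MvPolynomial.algebraMap_eq, AlgHom.commutes]
  exact DFunLike.congr_fun this P

theorem invRing_std_equiv :
    Nonempty (inv (coordIdeal k (Fin m) (Fin l)) Γ ≃ₐ[k] invRing (matGroup (stdN m l) Γ)) := by
  let e := sumAlgEquiv k (Fin m) (Fin m ⊕ Fin l)
  have h1 : ∀ x, x ∈ inv (coordIdeal k (Fin m) (Fin l)) Γ ↔
      e.symm x ∈ invRing (matGroup (stdN m l) Γ) := by
    intro x
    constructor
    · rintro hx _ ⟨γ, hγ, rfl⟩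
      apply e.injective
      change sumAlgEquiv k (Fin m) (Fin m ⊕ Fin l) _ = _
      rw [sum_shift]
      change shift _ γ (e (e.symm x)) = e (e.symm x)
      rw [AlgEquiv.apply_symm_apply]
      exact hx γ hγ
    · rintro hx γ hγ
      have := congrArg e (hx _ ⟨γ, hγ, rfl⟩)
      change sumAlgEquiv k (Fin m) (Fin m ⊕ Fin l) _ = _ at this
      rw [sum_shift] at this
      change shift _ γ (e (e.symm x)) = e (e.symm x) at this
      rwa [AlgEquiv.apply_symm_apply] at this
  refine ⟨AlgEquiv.ofAlgHom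
    ((e.symm.toAlgHom.comp ((inv (coordIdeal k (Fin m) (Fin l)) Γ).val.restrictScalars k)).codRestrict
      (invRing (matGroup (stdN m l) Γ)) (fun x => (h1 x.1).1 x.2))
    { toFun := fun y => ⟨e y.1, (h1 _).2 (by rw [AlgEquiv.symm_apply_apply]; exact y.2)⟩
      map_one' := Subtype.ext (map_one e)
      map_mul' := fun a b => Subtype.ext (map_mul e a.1 b.1)
      map_zero' := Subtype.ext (map_zero e)
      map_add' := fun a b => Subtype.ext (map_add e a.1 b.1)
      commutes' := fun r => Subtype.ext (e.commutes r) } ?_ ?_⟩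
  · apply AlgHom.ext; intro x; apply Subtype.ext
    exact e.symm_apply_apply x.1
  · apply AlgHom.ext; intro x; apply Subtype.ext
    exact e.apply_symm_apply x.1

theorem hasResolution_std [Finite Γ] :
    HasResolution (Spec.map (CommRingCat.ofHom (algebraMap k (invRing (matGroup (stdN m l) Γ))))) := by
  rcases Nat.eq_zero_or_pos m with rfl | hm
  · -- trivial group
    have h1 : invRing (matGroup (stdN 0 l) Γ) = ⊤ := by
      rw [eq_top_iff]
      rintro P - _ ⟨γ, hγ, rfl⟩
      have : sub (1 + γ • stdN 0 l) = AlgHom.id k _ := by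
        ext j : 1
        rcases j with j | j
        · exact j.elim0
        · exact sub_std_inr 0 l γ j
      rw [this]; rfl
    rw [h1]
    apply HasResolution.of_algEquiv (Subalgebra.topEquiv (R := k)
      (A := MvPolynomial (Fin 0 ⊕ (Fin 0 ⊕ Fin l)) k)).symm
    have h2 : Algebra.Smooth k (MvPolynomial (Fin 0 ⊕ (Fin 0 ⊕ Fin l)) k) := { }
    have h3 : Smooth (Spec.map (CommRingCat.ofHom
        (algebraMap k (MvPolynomial (Fin 0 ⊕ (Fin 0 ⊕ Fin l)) k)))) := by
      rw [HasRingHomProperty.Spec_iff (P := @Smooth)]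
      exact RingHom.smooth_algebraMap.2 h2
    exact HasResolution.of_smooth _
  · obtain ⟨e⟩ := invRing_std_equiv m l Γ
    apply HasResolution.of_algEquiv e
    have : Nonempty (Fin m) := ⟨⟨0, hm⟩⟩
    apply hasResolution_translation (coordIdeal k (Fin m) (Fin l)) (coordIdeal k (Fin m) (Fin l))
      (fun i => MvPolynomial.X_ne_zero _) Γ (FractionRing (MvPolynomial (Fin m ⊕ Fin l) k))
    · intro i
      exact smooth_coord k (Fin m) (Fin l) i _
    · intro i
      refine ⟨i, MvPolynomial.X_ne_zero _, fun j => ?_⟩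
      have h0 := X_ne k (Fin m) (Fin l) i (FractionRing (MvPolynomial (Fin m ⊕ Fin l) k))
      refine ⟨algebraMap _ _ (coordIdeal k (Fin m) (Fin l) j) /
        algebraMap _ _ (coordIdeal k (Fin m) (Fin l) i), ?_, ?_⟩
      · rw [blowupChart_eq (coordIdeal k (Fin m) (Fin l)) _ i h0]
        exact Algebra.subset_adjoin ⟨j, rfl⟩
      · rw [div_mul_cancel₀ _ h0]

end

theorem hasResolution_quadratic {k : Type u} [Field k] {n : ℕ} (N : Matrix (Fin n) (Fin n) k)
    (hN : N * N = 0) (Γ : AddSubgroup k) [Finite Γ] :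
    HasResolution (Spec.map (CommRingCat.ofHom (algebraMap k (invRing (matGroup N Γ))))) := by
  classical
  have hN' : ∀ v, (Matrix.toLin' N) (Matrix.toLin' N v) = 0 := by
    intro v
    have : (Matrix.toLin' (N * N)) v = 0 := by rw [hN]; simp
    rwa [Matrix.toLin'_mul] at this
  obtain ⟨m, l, b, hb1, hb2⟩ := exists_adapted_basis (k := k) (V := Fin n → k) (Matrix.toLin' N) hN'
  set P := b.toMatrix (Pi.basisFun k (Fin n)) with hP
  set Q := (Pi.basisFun k (Fin n)).toMatrix b with hQ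
  have hPQ : P * Q = 1 := b.toMatrix_mul_toMatrix_flip _
  have hQP : Q * P = 1 := (Pi.basisFun k (Fin n)).toMatrix_mul_toMatrix_flip _
  have hPNQ : P * N * Q = stdN m l := by
    have h1 := basis_toMatrix_mul_linearMap_toMatrix_mul_basis_toMatrix b (Pi.basisFun k (Fin n)) b
      (Pi.basisFun k (Fin n)) (Matrix.toLin' N)
    have h2 : LinearMap.toMatrix (Pi.basisFun k (Fin n)) (Pi.basisFun k (Fin n)) (Matrix.toLin' N)
        = N := by
      rw [LinearMap.toMatrix_eq_toMatrix']
      exact LinearMap.toMatrix'_toLin' N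
    rw [h2] at h1
    rw [hP, hQ, h1]
    ext i j
    rw [LinearMap.toMatrix_apply]
    rcases j with j | j
    · rw [hb1, Module.Basis.repr_self]
      simp only [stdN, Matrix.of_apply, Sum.elim_inl, Finsupp.single_apply]
      simp only [eq_comm]
    · rw [hb2]
      simp [stdN]
  have hG : (fun M => P * M * Q) '' (matGroup N Γ) = matGroup (stdN m l) Γ := by
    ext M
    constructor
    · rintro ⟨_, ⟨γ, hγ, rfl⟩, rfl⟩
      refine ⟨γ, hγ, ?_⟩
      change P * (1 + γ • N) * Q = _
      rw [Matrix.mul_add, Matrix.add_mul, Matrix.mul_one, hPQ, Matrix.mul_smul, Matrix.smul_mul, hPNQ]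
    · rintro ⟨γ, hγ, rfl⟩
      refine ⟨_, ⟨γ, hγ, rfl⟩, ?_⟩
      change P * (1 + γ • N) * Q = _
      rw [Matrix.mul_add, Matrix.add_mul, Matrix.mul_one, hPQ, Matrix.mul_smul, Matrix.smul_mul, hPNQ]
  obtain ⟨e⟩ := invRing_equiv P Q hPQ hQP (matGroup N Γ)
  rw [hG] at e
  exact HasResolution.of_algEquiv e (hasResolution_std m l Γ)

end Pool.Agent.MPb525bf
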