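import Pool.Agent.Lib.MP_b525bf_ag_h42.Bundle

/-!
# Resolution of quotients by groups of translations
-/

set_option autoImplicit false
set_option linter.style.haveILetI false
set_option linter.unusedSectionVars false

open MvPolynomial AlgebraicGeometry CategoryTheory

namespace Pool.Agent.MPb525bf

universe u

theorem mem_span_pow_one {A : Type u} [CommRing A] {κ : Type} (c : κ → A) (i : κ) :
    c i ∈ (powFilt (Ideal.span (Set.range c))).J 1 := by
  rw [mem_powFilt, pow_one]
  exact Ideal.subset_span ⟨i, rfl⟩

/-- The chart ring `A[c_j / c_i : j]` of the blow-up of the ideal `(c_j : j)`. -/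
noncomputable abbrev blowupChart {A : Type u} [CommRing A] {κ : Type}
    (c : κ → A) (KA : Type u) [Field KA] [Algebra A KA] (i : κ) :
    Subalgebra A KA :=
  chart (powFilt (Ideal.span (Set.range c))) KA (c i) (mem_span_pow_one c i)

theorem stable_shift {k : Type u} [Field k] {A : Type u} [CommRing A] [Algebra k A]
    {ι : Type} (f : ι → A) (Γ : AddSubgroup k) (I : Ideal A) :
    letI := shiftAction f Γ
    Stable (Multiplicative Γ) (powFilt (I.map (MvPolynomial.C (σ := ι)))) := by
  letI := shiftAction f Γ
  intro γ n b hb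
  change shift f (γ.toAdd : k) b ∈ (I.map (MvPolynomial.C (σ := ι))) ^ n
  have h1 := Ideal.mem_map_of_mem (shift f (γ.toAdd : k) : MvPolynomial ι A →+* MvPolynomial ι A)
    (show b ∈ (I.map (MvPolynomial.C (σ := ι))) ^ n from hb)
  rw [Ideal.map_pow, Ideal.map_map] at h1
  have h2 : ((shift f (γ.toAdd : k) : MvPolynomial ι A →+* MvPolynomial ι A).comp
      (MvPolynomial.C (σ := ι))) = MvPolynomial.C := by
    ext a
    rw [RingHom.comp_apply, ← MvPolynomial.algebraMap_eq]
    exact congrArg _ (AlgHom.commutes (shift f (γ.toAdd : k)) a)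
  rw [h2] at h1
  exact h1

theorem hasResolution_translation {k : Type u} [Field k] {A : Type u} [CommRing A] [IsDomain A]
    [Algebra k A] [Algebra.FiniteType k A] {ι κ : Type} [Finite ι] [Finite κ] [Nonempty κ]
    (f : ι → A) (c : κ → A) (c0 : ∀ i, c i ≠ 0) (Γ : AddSubgroup k) [Finite Γ]
    (KA : Type u) [Field KA] [Algebra A KA] [FaithfulSMul A KA]
    (hsm : ∀ i, ((algebraMap A (blowupChart c KA i)).comp (algebraMap k A)).Smooth)
    (hpr : ∀ i, ∃ j0, f j0 ≠ 0 ∧ ∀ j, ∃ t ∈ blowupChart c KA i,
      algebraMap A KA (f j) = t * algebraMap A KA (f j0)) :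
    HasResolution (Spec.map (CommRingCat.ofHom (algebraMap k (inv f Γ)))) := by
  set I := Ideal.span (Set.range c) with hI
  have hIFG : I.FG := ⟨(Set.finite_range c).toFinset, by rw [Set.Finite.coe_toFinset]⟩
  letI act := shiftAction f Γ
  have hinv := isInvariant_inv f Γ
  have hst : Stable (Multiplicative Γ) (powFilt (I.map (MvPolynomial.C (σ := ι)))) :=
    stable_shift f Γ I
  let F : Filt (inv f Γ) := invFilt I f Γ
  let K := FractionRing (MvPolynomial ι KA)
  letI algK : Algebra (inv f Γ) K :=
    ((algebraMap (MvPolynomial ι KA) K).comp ((MvPolynomial.map (algebraMap A KA)).comp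
      (inv f Γ).val.toRingHom)).toAlgebra
  have hinjA : Function.Injective (MvPolynomial.map (σ := ι) (algebraMap A KA)) :=
    MvPolynomial.map_injective _ (FaithfulSMul.algebraMap_injective A KA)
  have hfaith : FaithfulSMul (inv f Γ) K := by
    rw [faithfulSMul_iff_algebraMap_injective]
    intro x y hxy
    exact Subtype.ext (hinjA (FaithfulSMul.algebraMap_injective (MvPolynomial ι KA) K hxy))
  have hcJ : ∀ i, algebraMap A (inv f Γ) (c i) ∈ F.J 1 := by
    intro i
    change algebraMap (inv f Γ) (MvPolynomial ι A) (algebraMap A (inv f Γ) (c i)) ∈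
      (powFilt (I.map (MvPolynomial.C (σ := ι)))).J 1
    rw [mem_powFilt, pow_one]
    exact Ideal.mem_map_of_mem _ (Ideal.subset_span ⟨i, rfl⟩)
  have hg0 : ∀ i, algebraMap A (inv f Γ) (c i) ≠ 0 := by
    intro i h
    have h1 := congrArg (algebraMap (inv f Γ) (MvPolynomial ι A)) h
    rw [map_zero] at h1
    change (MvPolynomial.C (c i) : MvPolynomial ι A) = 0 at h1
    rw [MvPolynomial.C_eq_zero] at h1
    exact c0 i h1
  have hmapI : I.map (MvPolynomial.C (σ := ι)) =
      Ideal.span (Set.range fun i => (MvPolynomial.C (c i) : MvPolynomial ι A)) := by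
    rw [hI, Ideal.map_span, ← Set.range_comp]; rfl
  have hft : Algebra.FiniteType (inv f Γ) (rees F) := by
    apply finiteType_rees_comap (k := k) (G := Multiplicative Γ) hst Subtype.val_injective
    apply RingHom.FiniteType.comp
    · have := finiteType_rees_powFilt (I.map (MvPolynomial.C (σ := ι))) (hIFG.map _)
      exact RingHom.finiteType_algebraMap.2 this
    · have : Algebra.FiniteType k (MvPolynomial ι A) := inferInstance
      exact RingHom.finiteType_algebraMap.2 this
  refine hasResolution_of_charts F K (fun i => algebraMap A (inv f Γ) (c i)) hcJ hg0 ?_ ?_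
  · intro P hP hgP n r
    refine cover_comap (G := Multiplicative Γ) (𝓕 := powFilt (I.map (MvPolynomial.C (σ := ι))))
      (fun i => algebraMap A (inv f Γ) (c i)) hcJ hst Subtype.val_injective ?_ P hP hgP n r
    intro P hP hgP n r
    exact cover_powFilt (fun i => (MvPolynomial.C (c i) : MvPolynomial ι A)) _ hmapI hcJ P hgP n r
  · intro i
    letI := chartAlg (k := k) I (c i) (mem_span_pow_one c i) KA
    obtain ⟨e, he⟩ := exists_chart_equiv (k := k) I (c i) (mem_span_pow_one c i) (c0 i) KA f Γ K
      (fun P => rfl) (hcJ i)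
    obtain ⟨j0, hj0, ht⟩ := hpr i
    choose t ht ht' using ht
    have hsm' : Algebra.Smooth k (blowupChart c KA i) := by
      have := hsm i
      rw [RingHom.Smooth] at this
      exact this
    have h1 : Algebra.Smooth k (inv (fun j => algebraMap A (blowupChart c KA i) (f j)) Γ) := by
      apply smooth_inv _ _ j0 _ (fun j => ⟨t j, ht j⟩)
      · intro j
        exact Subtype.ext (ht' j)
      · intro h
        apply hj0
        exact FaithfulSMul.algebraMap_injective A KA
          ((congrArg Subtype.val h).trans (map_zero _).symm)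
    have h2 : ((algebraMap (inv f Γ) (chart F K (algebraMap A (inv f Γ) (c i)) (hcJ i))).comp
        (algebraMap k (inv f Γ))) =
        (e : _ →+* chart F K (algebraMap A (inv f Γ) (c i)) (hcJ i)).comp
          (algebraMap k (inv (fun j => algebraMap A (blowupChart c KA i) (f j)) Γ)) := by
      ext r
      change algebraMap (inv f Γ) K (algebraMap k (inv f Γ) r) = (e _ : K)
      rw [he]
      change algebraMap (MvPolynomial ι KA) K (MvPolynomial.map (algebraMap A KA)
        (MvPolynomial.C (algebraMap k A r))) = algebraMap (MvPolynomial ι KA) K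
          (emb I (c i) (mem_span_pow_one c i) KA (MvPolynomial.C (algebraMap k _ r)))
      rw [MvPolynomial.map_C, emb, MvPolynomial.map_C]
      rfl
    rw [h2]
    exact RingHom.Smooth.comp (RingHom.smooth_algebraMap.2 h1) (RingHom.Smooth.of_bijective e.bijective)

end Pool.Agent.MPb525bf
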