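import Pool.Agent.Lib.MP_b525bf_ag_h42.Group

/-!
# Filtration by powers of an ideal
-/

set_option autoImplicit false
set_option linter.style.haveILetI false

open Polynomial

namespace Pool.Agent.MPb525bf

/-- The filtration by the powers of an ideal. -/
def powFilt {R : Type*} [CommRing R] (I : Ideal R) : Filt R where
  J n := I ^ n
  zero := by rw [pow_zero, Ideal.one_eq_top]
  anti _ _ h := Ideal.pow_le_pow_right h
  mul m n a ha b hb := by
    rw [pow_add]
    exact Ideal.mul_mem_mul ha hb

theorem mem_powFilt {R : Type*} [CommRing R] (I : Ideal R) (n : ℕ) (r : R) :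
    r ∈ (powFilt I).J n ↔ r ∈ I ^ n := Iff.rfl

theorem rees_powFilt {R : Type*} [CommRing R] (I : Ideal R) : rees (powFilt I) = reesAlgebra I :=
  rfl

theorem finiteType_rees_powFilt {R : Type*} [CommRing R] (I : Ideal R) (hI : I.FG) :
    Algebra.FiniteType R (rees (powFilt I)) := by
  rw [rees_powFilt]
  exact (reesAlgebra I).fg_iff_finiteType.1 (reesAlgebra.fg hI)

theorem cover_powFilt {R : Type*} [CommRing R] {ι : Type*} (c : ι → R) (I : Ideal R)
    (hI : I = Ideal.span (Set.range c))
    (hc : ∀ i, c i ∈ (powFilt I).J 1)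
    (P : Ideal (rees (powFilt I)))
    (hP : ∀ i, gT _ (c i) (hc i) ∈ P) (n : ℕ)
    (r : (powFilt I).J (n + 1)) : mon _ (n + 1) r ∈ P := by
  obtain ⟨r, hr⟩ := r
  have hr' : r ∈ I * I ^ n := by rw [← pow_succ']; exact hr
  have key : ∀ r ∈ I * I ^ n, ∃ hr : r ∈ (powFilt I).J (n + 1), mon (powFilt I) (n + 1) ⟨r, hr⟩ ∈ P := by
    intro r hr
    refine Submodule.mul_induction_on hr ?_ ?_
    · intro a ha b hb
      have key2 : ∀ a ∈ I, ∃ hr : a * b ∈ (powFilt I).J (n + 1),
          mon (powFilt I) (n + 1) ⟨a * b, hr⟩ ∈ P := by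
        intro a ha
        have ha' : a ∈ Submodule.span R (Set.range c) := by rw [hI] at ha; exact ha
        refine Submodule.span_induction ?_ ?_ ?_ ?_ ha'
        · rintro _ ⟨i, rfl⟩
          refine ⟨?_, ?_⟩
          · change c i * b ∈ I ^ (n + 1)
            rw [pow_succ']
            exact Ideal.mul_mem_mul (hI ▸ Ideal.subset_span ⟨i, rfl⟩) hb
          · have h1 := Ideal.mul_mem_right (mon (powFilt I) n ⟨b, hb⟩) P (hP i)
            convert h1 using 1
            apply Subtype.ext
            change monomial (n + 1) (c i * b) = monomial 1 (c i) * monomial n b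
            rw [monomial_mul_monomial, add_comm 1 n]
        · refine ⟨by rw [zero_mul]; exact Ideal.zero_mem _, ?_⟩
          convert Ideal.zero_mem P using 1
          apply Subtype.ext
          change monomial (n + 1) (0 * b) = 0
          simp
        · rintro x y _ _ ⟨hx, hx'⟩ ⟨hy, hy'⟩
          refine ⟨by rw [add_mul]; exact Ideal.add_mem _ hx hy, ?_⟩
          convert Ideal.add_mem P hx' hy' using 1
          apply Subtype.ext
          change monomial (n + 1) ((x + y) * b) = monomial (n + 1) (x * b) + monomial (n + 1) (y * b)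
          rw [add_mul, map_add]
        · rintro a x _ ⟨hx, hx'⟩
          refine ⟨by rw [smul_eq_mul, mul_assoc]; exact Ideal.mul_mem_left _ _ hx, ?_⟩
          convert Ideal.mul_mem_left P (algebraMap R (rees (powFilt I)) a) hx' using 1
          apply Subtype.ext
          change monomial (n + 1) (a * x * b) = Polynomial.C a * monomial (n + 1) (x * b)
          rw [C_mul_monomial, mul_assoc]
      exact key2 a ha
    · rintro x y ⟨hx, hx'⟩ ⟨hy, hy'⟩
      refine ⟨Ideal.add_mem _ hx hy, ?_⟩
      convert Ideal.add_mem P hx' hy' using 1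
      apply Subtype.ext
      change monomial (n + 1) (x + y) = monomial (n + 1) x + monomial (n + 1) y
      rw [map_add]
  exact (key r hr').2

end Pool.Agent.MPb525bf
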