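import Mathlib

/-!
# The Rees algebra of a filtration and its grading
-/

set_option autoImplicit false

open Polynomial

namespace Pool.Agent.MPb525bf

universe u

/-- A multiplicative descending filtration `J 0 = R ⊇ J 1 ⊇ J 2 ⊇ ...` by ideals. -/
structure Filt (R : Type u) [CommRing R] where
  /-- the ideals of the filtration -/
  J : ℕ → Ideal R
  zero : J 0 = ⊤
  anti : Antitone J
  mul : ∀ m n, ∀ a ∈ J m, ∀ b ∈ J n, a * b ∈ J (m + n)

variable {R : Type u} [CommRing R]

/-- The Rees algebra `⊕ Jₙ Tⁿ ⊆ R[T]` of a filtration. -/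
def rees (F : Filt R) : Subalgebra R R[X] where
  carrier := { f | ∀ i, f.coeff i ∈ F.J i }
  mul_mem' hf hg i := by
    rw [coeff_mul]
    apply Ideal.sum_mem
    rintro ⟨j, k⟩ e
    have e' : j + k = i := by simpa using e
    rw [← e']
    exact F.mul _ _ _ (hf j) _ (hg k)
  one_mem' i := by
    rw [coeff_one]
    split_ifs with h
    · subst h
      simp [F.zero]
    · simp
  add_mem' hf hg i := by
    rw [coeff_add]
    exact Ideal.add_mem _ (hf i) (hg i)
  zero_mem' _ := Ideal.zero_mem _
  algebraMap_mem' r i := by
    rw [Polynomial.algebraMap_apply, coeff_C]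
    split_ifs with h
    · subst h
      simp [F.zero]
    · simp

theorem mem_rees (F : Filt R) (f : R[X]) : f ∈ rees F ↔ ∀ i, f.coeff i ∈ F.J i := Iff.rfl

theorem monomial_mem_rees (F : Filt R) {n : ℕ} {r : R} : monomial n r ∈ rees F ↔ r ∈ F.J n := by
  constructor
  · intro h
    simpa using h n
  · intro h i
    rw [coeff_monomial]
    split_ifs with hi
    · subst hi; exact h
    · exact Ideal.zero_mem _

/-- The element `r Tⁿ` of the Rees algebra. -/
noncomputable def mon (F : Filt R) (n : ℕ) (r : F.J n) : rees F :=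
  ⟨monomial n r.1, (monomial_mem_rees F).2 r.2⟩

/-- The degree `n` part of the Rees algebra. -/
def gr (F : Filt R) (n : ℕ) : Submodule R (rees F) where
  carrier := { f | ∀ i, i ≠ n → f.1.coeff i = 0 }
  add_mem' hf hg i hi := by simp [hf i hi, hg i hi]
  zero_mem' := by intro i _; simp
  smul_mem' r f hf i hi := by
    change (r • f.1).coeff i = 0
    rw [coeff_smul, hf i hi, smul_zero]

theorem mem_gr {F : Filt R} {n : ℕ} {f : rees F} : f ∈ gr F n ↔ ∀ i, i ≠ n → f.1.coeff i = 0 :=
  Iff.rfl

theorem mem_gr_iff {F : Filt R} {n : ℕ} {f : rees F} :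
    f ∈ gr F n ↔ f.1 = monomial n (f.1.coeff n) := by
  rw [mem_gr]
  constructor
  · intro h
    ext i
    rw [coeff_monomial]
    split_ifs with hi
    · rw [hi]
    · exact h i (Ne.symm hi)
  · intro h i hi
    rw [h, coeff_monomial, if_neg (Ne.symm hi)]

theorem mon_mem_gr (F : Filt R) (n : ℕ) (r : F.J n) : mon F n r ∈ gr F n := by
  intro i hi
  change (monomial n r.1).coeff i = 0
  rw [coeff_monomial, if_neg (Ne.symm hi)]

instance (F : Filt R) : SetLike.GradedMonoid (gr F) where
  one_mem := by
    intro i hi
    change (1 : R[X]).coeff i = 0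
    rw [coeff_one, if_neg hi]
  mul_mem := by
    intro m n a b ha hb
    rw [mem_gr_iff] at ha hb
    intro i hi
    change (a.1 * b.1).coeff i = 0
    rw [ha, hb, monomial_mul_monomial, coeff_monomial, if_neg (Ne.symm hi)]

/-- The homogeneous components. -/
noncomputable def comp (F : Filt R) (n : ℕ) : rees F →+ gr F n where
  toFun f := ⟨mon F n ⟨f.1.coeff n, f.2 n⟩, mon_mem_gr F n _⟩
  map_zero' := by
    ext; simp [mon]
  map_add' a b := by
    ext : 2
    simp [mon]

theorem comp_coe (F : Filt R) (n : ℕ) (f : rees F) :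
    ((comp F n f : rees F) : R[X]) = monomial n (f.1.coeff n) := rfl

/-- The decomposition into homogeneous components. -/
noncomputable def dec (F : Filt R) (f : rees F) : DirectSum ℕ fun i => gr F i :=
  ∑ n ∈ f.1.support, DirectSum.of (fun i => gr F i) n (comp F n f)

theorem dec_eq (F : Filt R) (f : rees F) (s : Finset ℕ) (hs : f.1.support ⊆ s) :
    dec F f = ∑ n ∈ s, DirectSum.of (fun i => gr F i) n (comp F n f) := by
  apply Finset.sum_subset hs
  intro n _ hn
  have : comp F n f = 0 := by
    apply Subtype.ext; apply Subtype.ext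
    rw [comp_coe, notMem_support_iff.1 hn]; simp
  rw [this, map_zero]

theorem dec_add (F : Filt R) (a b : rees F) : dec F (a + b) = dec F a + dec F b := by
  classical
  rw [dec_eq F (a + b) (a.1.support ∪ b.1.support) support_add,
    dec_eq F a (a.1.support ∪ b.1.support) Finset.subset_union_left,
    dec_eq F b (a.1.support ∪ b.1.support) Finset.subset_union_right, ← Finset.sum_add_distrib]
  apply Finset.sum_congr rfl
  intro n _
  rw [map_add, map_add]

theorem dec_coe (F : Filt R) (n : ℕ) (a : gr F n) :
    dec F a.1 = DirectSum.of (fun i => gr F i) n a := by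
  have hs : a.1.1.support ⊆ {n} := by
    intro i
    rw [mem_support_iff, Finset.mem_singleton]
    intro h; by_contra hi; exact h (a.2 i hi)
  rw [dec_eq F a.1 {n} hs, Finset.sum_singleton]
  congr 1
  apply Subtype.ext; apply Subtype.ext
  rw [comp_coe]
  exact (mem_gr_iff.1 a.2).symm

noncomputable instance (F : Filt R) : DirectSum.Decomposition (gr F) where
  decompose' := dec F
  left_inv f := by
    apply Subtype.ext
    rw [dec, map_sum]
    simp only [DirectSum.coeAddMonoidHom_of]
    rw [AddSubmonoidClass.coe_finsetSum]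
    conv_rhs => rw [f.1.as_sum_support]
    exact Finset.sum_congr rfl fun n _ => comp_coe F n f
  right_inv x := by
    induction x using DirectSum.induction_on with
    | zero => simp [dec]
    | of n a => rw [DirectSum.coeAddMonoidHom_of, dec_coe]
    | add x y hx hy => rw [map_add, dec_add, hx, hy]

noncomputable instance (F : Filt R) : GradedRing (gr F) where

end Pool.Agent.MPb525bf
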