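import Pool.Agent.Lib.MP_b525bf_ag_h42.Inv
import Pool.Agent.Lib.MP_b525bf_ag_h42.Pow

/-!
# Translation groups acting on polynomial rings
-/

set_option autoImplicit false
set_option linter.style.haveILetI false

open MvPolynomial

namespace Pool.Agent.MPb525bf

universe u

variable {k : Type u} [Field k] {C : Type u} [CommRing C] [Algebra k C] {ι : Type}

theorem shift_add (f : ι → C) (γ δ : k) :
    shift f (γ + δ) = (shift f γ).comp (shift f δ) := by
  ext j : 1
  simp only [shift_X, AlgHom.comp_apply, map_add]
  rw [← MvPolynomial.algebraMap_eq, AlgHom.commutes]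
  simp only [MvPolynomial.algebraMap_eq, add_mul, map_add]
  ring

theorem shift_zero (f : ι → C) : shift f (0 : k) = AlgHom.id C _ := by
  ext j : 1
  simp

/-- The action of a group of translations. -/
noncomputable abbrev shiftAction (f : ι → C) (Γ : AddSubgroup k) :
    MulSemiringAction (Multiplicative Γ) (MvPolynomial ι C) where
  smul γ P := shift f (γ.toAdd : k) P
  one_smul P := by
    change shift f ((0 : Γ) : k) P = P
    rw [ZeroMemClass.coe_zero, shift_zero]; rfl
  mul_smul γ δ P := by
    change shift f ((γ.toAdd + δ.toAdd : Γ) : k) P = shift f (γ.toAdd : k) (shift f (δ.toAdd : k) P)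
    rw [AddSubgroup.coe_add, shift_add]; rfl
  smul_zero γ := map_zero _
  smul_add γ := map_add _
  smul_one γ := map_one _
  smul_mul γ := map_mul _

/-- `inv f Γ` is the ring of invariants of this action. -/
theorem isInvariant_inv (f : ι → C) (Γ : AddSubgroup k) :
    letI := shiftAction f Γ
    Algebra.IsInvariant (inv f Γ) (MvPolynomial ι C) (Multiplicative Γ) := by
  letI := shiftAction f Γ
  constructor
  intro b hb
  refine ⟨⟨b, fun γ hγ => hb (Multiplicative.ofAdd ⟨γ, hγ⟩)⟩, rfl⟩

variable (f : ι → C) (Γ : AddSubgroup k)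

/-- The shift as an automorphism over the invariants. -/
noncomputable def shiftInv (γ : Γ) : MvPolynomial ι C →ₐ[inv f Γ] MvPolynomial ι C :=
  { (shift f (γ : k)).toRingHom with
    commutes' := fun r => r.2 γ γ.2 }

theorem shiftInv_apply (γ : Γ) (P : MvPolynomial ι C) :
    shiftInv f Γ γ P = shift f (γ : k) P := rfl

theorem exists_equiv_inv [IsDomain C] [Fintype Γ] (j0 : ι) (hj0 : f j0 ≠ 0)
    (t : ι → C) (ht : ∀ j, f j = t j * f j0) :
    ∃ F : Polynomial (inv f Γ), F.Monic ∧ 0 < F.natDegree ∧
      Nonempty (AdjoinRoot F ≃ₐ[inv f Γ] MvPolynomial ι C) := by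
  classical
  set x : MvPolynomial ι C := X j0 with hx
  set G : Polynomial (MvPolynomial ι C) :=
    ∏ γ : Γ, (Polynomial.X - Polynomial.C (shift f (γ : k) x)) with hG
  have hGm : G.Monic := Polynomial.monic_prod_of_monic _ _ fun _ _ => Polynomial.monic_X_sub_C _
  have hGinv : ∀ n, ∃ a : inv f Γ, algebraMap (inv f Γ) (MvPolynomial ι C) a = G.coeff n := by
    intro n
    refine ⟨⟨G.coeff n, fun δ hδ => ?_⟩, rfl⟩
    have h1 : G.map (shift f δ : MvPolynomial ι C →+* MvPolynomial ι C) = G := by
      rw [hG, Polynomial.map_prod]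
      simp only [Polynomial.map_sub, Polynomial.map_X, Polynomial.map_C, RingHom.coe_coe]
      have h2 : ∀ γ : Γ, shift f δ (shift f (γ : k) x) = shift f ((⟨δ, hδ⟩ + γ : Γ) : k) x := by
        intro γ
        rw [AddSubgroup.coe_add, shift_add]; rfl
      have h3 := Fintype.prod_equiv (Equiv.addLeft (⟨δ, hδ⟩ : Γ))
        (fun γ : Γ => (Polynomial.X - Polynomial.C (shift f ((⟨δ, hδ⟩ + γ : Γ) : k) x) :
          Polynomial (MvPolynomial ι C)))
        (fun γ : Γ => (Polynomial.X - Polynomial.C (shift f (γ : k) x) :
          Polynomial (MvPolynomial ι C))) (fun γ => by rw [Equiv.coe_addLeft])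
      rw [← h3]
      apply Finset.prod_congr rfl
      intro γ _
      rw [h2]
    have := congrArg (fun Q => Polynomial.coeff Q n) h1
    simpa using this
  obtain ⟨F, hFG, hFd, hFm⟩ : ∃ F : Polynomial (inv f Γ),
      F.map (algebraMap (inv f Γ) (MvPolynomial ι C)) = G ∧ F.natDegree = G.natDegree ∧ F.Monic := by
    apply Polynomial.lifts_and_natDegree_eq_and_monic
    · rw [Polynomial.lifts_iff_coeff_lifts]
      intro n
      obtain ⟨a, ha⟩ := hGinv n
      exact ⟨a, ha⟩
    · exact hGm
  have hGd : G.natDegree = Fintype.card Γ := by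
    rw [hG, Polynomial.natDegree_prod_of_monic _ _ fun _ _ => Polynomial.monic_X_sub_C _]
    simp
  refine ⟨F, hFm, ?_, ?_⟩
  · rw [hFd, hGd]; exact Fintype.card_pos
  · apply exists_equiv_of_nodes Subtype.val_injective (shiftInv f Γ) x _ F hFm (by rw [hFd, hGd])
    · rw [Polynomial.aeval_def, ← Polynomial.eval_map, hFG, hG, Polynomial.eval_prod]
      apply Finset.prod_eq_zero (Finset.mem_univ (0 : Γ))
      simp [shift_zero]
    · rw [eq_top_iff]
      intro P _
      have hxm : x ∈ Algebra.adjoin (inv f Γ) {x} := Algebra.self_mem_adjoin_singleton _ _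
      have hC : ∀ c : C, (MvPolynomial.C c : MvPolynomial ι C) ∈ Algebra.adjoin (inv f Γ) {x} := by
        intro c
        exact (Algebra.adjoin (inv f Γ) {x}).algebraMap_mem (algebraMap C (inv f Γ) c)
      induction P using MvPolynomial.induction_on with
      | C c => exact hC c
      | add p q hp hq => exact add_mem (hp trivial) (hq trivial)
      | mul_X p j hp =>
        refine mul_mem (hp trivial) ?_
        have h1 : (X j - MvPolynomial.C (t j) * x : MvPolynomial ι C) ∈ inv f Γ := by
          intro γ _
          rw [map_sub, map_mul, hx, shift_X, shift_X, ← MvPolynomial.algebraMap_eq, AlgHom.commutes,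
            ht j]
          simp only [MvPolynomial.algebraMap_eq, map_mul]
          ring
        have h2 : (X j : MvPolynomial ι C) = (X j - MvPolynomial.C (t j) * x) +
            MvPolynomial.C (t j) * x := by ring
        rw [h2]
        refine add_mem ?_ (mul_mem (hC _) hxm)
        exact (Algebra.adjoin (inv f Γ) {x}).algebraMap_mem ⟨_, h1⟩
    · intro γ δ h
      have h' : shift f (γ : k) x = shift f (δ : k) x := h
      rw [hx, shift_X, shift_X, add_right_inj, MvPolynomial.C_inj] at h'
      have h2 := mul_right_cancel₀ hj0 h'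
      exact Subtype.ext ((algebraMap k C).injective h2)

/-- The invariants of a translation group with principal direction are smooth. -/
theorem smooth_inv [IsDomain C] [Finite Γ] [Finite ι] [Algebra.Smooth k C] (j0 : ι) (hj0 : f j0 ≠ 0)
    (t : ι → C) (ht : ∀ j, f j = t j * f j0) : Algebra.Smooth k (inv f Γ) := by
  cases nonempty_fintype Γ
  obtain ⟨F, hF, hF0, ⟨e⟩⟩ := exists_equiv_inv f Γ j0 hj0 t ht
  have hsm0 : Algebra.Smooth C (MvPolynomial ι C) :=
    { }
  have hsm : Algebra.Smooth k (MvPolynomial ι C) := Algebra.Smooth.comp k C (MvPolynomial ι C)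
  have h1 : Algebra.FormallySmooth k (AdjoinRoot F) :=
    Algebra.FormallySmooth.of_equiv (e.symm.restrictScalars k)
  have h2 : Algebra.FormallySmooth k (inv f Γ) := formallySmooth_of_adjoinRoot F hF hF0
  letI := shiftAction f Γ
  have := isInvariant_inv f Γ
  have h3 : Algebra.IsIntegral (inv f Γ) (MvPolynomial ι C) :=
    Algebra.IsInvariant.isIntegral _ _ (Multiplicative Γ)
  have h4 : Algebra.FiniteType k (MvPolynomial ι C) := inferInstance
  have h5 : Algebra.FiniteType k (inv f Γ) :=
    finiteType_of_integral (Q := MvPolynomial ι C) Subtype.val_injective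
  have h6 : Algebra.FinitePresentation k (inv f Γ) := Algebra.FinitePresentation.of_finiteType.1 h5
  exact { }

end Pool.Agent.MPb525bf
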